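import Pool.Agent.H389R2.LV.Defs

set_option autoImplicit false
set_option maxHeartbeats 1000000

namespace Pool.Agent.H389R2.LV

open H974 Pool.Agent.H160R2.CV Pool.Agent.H389R2.CD

theorem rsw_long_aux (m : ℕ) : ∃ c : ℝ, 0 < c ∧ ∀ n : ℤ, 1 ≤ n →
    c ≤ hh (1 / 2) (((m : ℤ) + 8) * n) (2 * n) := by
  induction m with
  | zero =>
    refine ⟨(1 / 2 : ℝ) ^ 47, by positivity, fun n hn => ?_⟩
    exact rsw (n := n) (by omega) (by push_cast; omega) (by push_cast; omega) le_rfl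
  | succ m ih =>
    obtain ⟨c, hc, h⟩ := ih
    refine ⟨c * (1 / 2 : ℝ) ^ 47 * (1 / 2), by positivity, fun n hn => ?_⟩
    have hm : (0 : ℤ) ≤ (m : ℤ) * n := by positivity
    have e1 : ((m : ℤ) + 8) * n = (m : ℤ) * n + 8 * n := by ring
    have k1 := h n hn
    have k2 : (1 / 2 : ℝ) ^ 47 ≤ hh (1 / 2) (8 * n) (2 * n) :=
      rsw (n := n) (by omega) (by omega) le_rfl le_rfl
    have k3 := hh_square (2 * n) (by omega)
    have k4 := hh_glue (q := 1 / 2) (by norm_num) (by norm_num) (w1 := ((m : ℤ) + 8) * n)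
      (w2 := 8 * n) (v := 2 * n) (h := 2 * n) (by omega) (by rw [e1]; omega) (by omega) (by omega)
    have k5 : hh (1 / 2) (((m : ℤ) + 8) * n + 8 * n - 2 * n) (2 * n)
        ≤ hh (1 / 2) ((((m + 1 : ℕ) : ℤ) + 8) * n) (2 * n) := by
      refine hh_mono (by norm_num) (by norm_num) ?_ ?_ le_rfl
      · have : (((m + 1 : ℕ) : ℤ) + 8) * n = (m : ℤ) * n + 9 * n := by push_cast; ring
        rw [this]; omega
      · have : (((m + 1 : ℕ) : ℤ) + 8) * n = (m : ℤ) * n + 9 * n := by push_cast; ring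
        rw [this, e1]; omega
    have h0 : (0 : ℝ) ≤ (1 / 2 : ℝ) ^ 47 := by positivity
    have hn1 := hh_nonneg (q := 1 / 2) (by norm_num) (by norm_num) (((m : ℤ) + 8) * n) (2 * n)
    have hn2 := hh_nonneg (q := 1 / 2) (by norm_num) (by norm_num) (8 * n) (2 * n)
    calc c * (1 / 2 : ℝ) ^ 47 * (1 / 2)
        ≤ hh (1 / 2) (((m : ℤ) + 8) * n) (2 * n) * hh (1 / 2) (8 * n) (2 * n) *
          hh (1 / 2) (2 * n) (2 * n) := by
          apply mul_le_mul _ k3 (by norm_num) (mul_nonneg hn1 hn2)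
          exact mul_le_mul k1 k2 h0 hn1
      _ ≤ _ := k4
      _ ≤ _ := k5

/-- L9: crossing probabilities of long rectangles. -/
theorem rsw_long (κ : ℕ) : ∃ c : ℝ, 0 < c ∧ ∀ w h : ℤ, 2 ≤ h → 0 < w → w ≤ κ * h →
    c ≤ hh (1 / 2) w h := by
  obtain ⟨c, hc, hcn⟩ := rsw_long_aux (3 * κ)
  refine ⟨c, hc, fun w h hh2 hw hwκ => ?_⟩
  obtain ⟨n, hn1, hn2, hn3⟩ : ∃ n : ℤ, 1 ≤ n ∧ 2 * n ≤ h ∧ h ≤ 3 * n :=
    ⟨h / 2, by omega, by omega, by omega⟩
  have hκ : (0 : ℤ) ≤ κ := by positivity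
  refine (hcn n hn1).trans (hh_mono (by norm_num) (by norm_num) hw ?_ hn2)
  have h1 : (κ : ℤ) * h ≤ κ * (3 * n) := mul_le_mul_of_nonneg_left hn3 hκ
  have h2 : (((3 * κ : ℕ) : ℤ) + 8) * n = κ * (3 * n) + 8 * n := by push_cast; ring
  rw [h2]
  linarith

end Pool.Agent.H389R2.LV
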