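import Pool.Agent.H389R2.LV.Mark
import Pool.Agent.H389R2.LV.Rsw

set_option autoImplicit false
set_option maxHeartbeats 1000000

namespace Pool.Agent.H389R2.LV

open H974 Pool.Agent.H160R2.CV Pool.Agent.H389R2.CD

private theorem dk_geo {a b c d : ℤ} {e : Edg} (he : e ∈ LRE a b c d) :
    ((a ≤ (src e).1 ∧ (src e).1 ≤ b) ∧ (c ≤ (src e).2 ∧ (src e).2 ≤ d)) ∧
      dsrc e ∈ Phi a b c d ∧ dtgt e ∈ Phi a b c d ∧ Cor (src e) (dsrc e) ∧
      Cor (src e) (dtgt e) := by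
  have hP : ∀ p q : ℤ, ((a ≤ p ∧ p < b) ∧ (c - 1 ≤ q ∧ q ≤ d)) → ((p, q) : Vtx) ∈ Phi a b c d :=
    fun _ _ h => h
  have hC : ∀ u v p q : ℤ, ((p = u ∨ p = u - 1) ∧ (q = v ∨ q = v - 1)) →
      Cor ((u, v) : Vtx) (p, q) := fun _ _ _ _ h => h
  obtain ⟨x, y, _ | _⟩ := e
  · simp only [mem_LRE_false] at he
    rw [src_mk, dsrc_false, dtgt_mk]
    exact ⟨by simp only; omega, hP _ _ (by omega), hP _ _ (by omega), hC _ _ _ _ (by omega),
      hC _ _ _ _ (by omega)⟩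
  · simp only [mem_LRE_true] at he
    rw [src_mk, dsrc_true, dtgt_mk]
    exact ⟨by simp only; omega, hP _ _ (by omega), hP _ _ (by omega), hC _ _ _ _ (by omega),
      hC _ _ _ _ (by omega)⟩

/-- L12a: a closed dual top-bottom crossing by unexplored edges brings the next level to the
top. -/
theorem next_top {a b c d : ℤ} (hab : a < b) (hcd : c < d) {F : Finset Edg} {k : ℕ} {x x' : ℤ}
    (hx : a ≤ x ∧ x < b) (hx' : a ≤ x' ∧ x' < b)
    (h : DReach (↑(LRE a b c d) \ (↑F \ ↑(EA a b c d (DS a b c d F k)))) (x, c - 1) (x', d)) :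
    Top a b d (DS a b c d F (k + 1)) := by
  refine ⟨x', hx', ?_⟩
  have key : ∀ g, DReach (↑(LRE a b c d) \ (↑F \ ↑(EA a b c d (DS a b c d F k)))) (x, c - 1) g →
      g ∈ DS a b c d F (k + 1) := by
    intro g hg
    induction hg with
    | refl => exact DS_bot hcd F (k + 1) hx.1 hx.2
    | @tail g g' _ hs ih =>
      obtain ⟨e, ⟨heL, heF⟩, hcase⟩ := hs
      have heL' : e ∈ LRE a b c d := heL
      obtain ⟨k1, k2, k3, k4, k5⟩ := dk_geo heL'
      by_cases heF2 : e ∈ F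
      · have heE : e ∈ EA a b c d (DS a b c d F k) := by
          by_contra hne
          exact heF ⟨heF2, hne⟩
        have hor := (mem_EA.mp heE).2
        have hmain : g' ∉ DS a b c d F k → g ∈ DS a b c d F k ∧ g' ∈ Phi a b c d ∧
            Cor (src e) g ∧ Cor (src e) g' := by
          intro hn
          rcases hcase with ⟨h1, h2⟩ | ⟨h1, h2⟩
          · rw [h1, h2] at hor
            rw [h1] at k2 k4
            rw [h2] at k3 k5
            exact ⟨hor.resolve_right hn, k3, k4, k5⟩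
          · rw [h1, h2] at hor
            rw [h1] at k2 k4
            rw [h2] at k3 k5
            exact ⟨hor.resolve_left hn, k2, k5, k4⟩
        by_cases hn : g' ∈ DS a b c d F k
        · exact DS_mono hcd F k hn
        · obtain ⟨m1, m2, m3, m4⟩ := hmain hn
          exact ⟨src e, ⟨g, m1, src e, m3, k1.1, k1.2, Reach.refl _ _⟩, g', m2, m4,
            DReach.refl _ _⟩
      · obtain ⟨v, hv, g0, hg0, hc0, hr0⟩ := ih
        refine ⟨v, hv, g0, hg0, hc0, hr0.trans (DAdj.reach ⟨e, ⟨heL, ?_⟩, hcase⟩)⟩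
        exact fun hh => heF2 hh
  exact key _ h

private theorem dk_sub {N : ℤ} (hN : 1 ≤ N) : LRE (-(32 * N)) (32 * N) 0 (256 * N) ⊆ Big N := by
  unfold Big
  exact LRE_subset_RE.trans (RE_subset (by omega) (by omega) (by omega) (by omega))

private theorem dk_LR {a b c d : ℤ} (hab : a ≤ b) (hcd : c ≤ d) {F : Finset Edg}
    (h : ¬ ∃ x x', (a ≤ x ∧ x < b) ∧ (a ≤ x' ∧ x' < b) ∧
      DReach (↑(LRE a b c d) \ ↑F) (x, c - 1) (x', d)) : LRc a b c d F := by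
  by_contra hcon
  apply h
  set W : Vtx → Prop := fun v => ∃ y, (c ≤ y ∧ y ≤ d) ∧ Reach (↑F ∩ ↑(LRE a b c d)) (a, y) v
    with hW
  have hL : ∀ y, c ≤ y → y ≤ d → W (a, y) := fun y h3 h4 => ⟨y, ⟨h3, h4⟩, Reach.refl _ _⟩
  have hR : ∀ y, c ≤ y → y ≤ d → ¬ W (b, y) := by
    rintro y h3 h4 ⟨y0, h5, h6⟩
    exact hcon ⟨y0, y, h5, ⟨h3, h4⟩, h6⟩
  obtain ⟨x, x', hx, hx', hr⟩ := dual_crossing hab hcd W hL hR
  refine ⟨x, x', hx, hx', ?_⟩
  refine DReach.mono ?_ hr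
  rintro e ⟨he1, he2⟩
  refine ⟨he2, ?_⟩
  intro heF
  apply he1
  constructor
  · rintro ⟨y, h3, h4⟩
    exact ⟨y, h3, h4.trans (Adj.reach ⟨e, ⟨heF, he2⟩, Or.inl ⟨rfl, rfl⟩⟩)⟩
  · rintro ⟨y, h3, h4⟩
    exact ⟨y, h3, h4.trans (Adj.reach ⟨e, ⟨heF, he2⟩, Or.inr ⟨rfl, rfl⟩⟩)⟩

/-- L12b: dual crossings have positive probability. -/
theorem dual_prob : ∃ q : ℝ, 0 < q ∧ q < 1 ∧ ∀ N : ℤ, 1 ≤ N → ∀ S : Finset Edg, Big N ⊆ S →
    Pr P S (fun F => ¬ ∃ x x', (-(32 * N) ≤ x ∧ x < 32 * N) ∧ (-(32 * N) ≤ x' ∧ x' < 32 * N) ∧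
      DReach (↑(LRE (-(32 * N)) (32 * N) 0 (256 * N)) \ ↑F) (x, 0 - 1) (x', 256 * N)) ≤ q := by
  obtain ⟨c0, hc0, hc⟩ := rsw_long 5
  refine ⟨max (1 / 2) (1 - c0), lt_max_of_lt_left (by norm_num), max_lt (by norm_num)
    (by linarith), ?_⟩
  intro N hN S hS
  refine le_trans ?_ (le_max_right _ _)
  have hsub : LRE (-(32 * N)) (32 * N) 0 (256 * N) ⊆ S := (dk_sub hN).trans hS
  have h1 : Pr P S (fun F => ¬ ∃ x x', (-(32 * N) ≤ x ∧ x < 32 * N) ∧
      (-(32 * N) ≤ x' ∧ x' < 32 * N) ∧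
      DReach (↑(LRE (-(32 * N)) (32 * N) 0 (256 * N)) \ ↑F) (x, 0 - 1) (x', 256 * N)) ≤
      Pr P S (LRc (-(32 * N)) (32 * N) 0 (256 * N)) :=
    Pr_mono w_ok (fun F _ hF => dk_LR (by omega) (by omega) hF)
  refine h1.trans ?_
  have h2 : Pr P S (LRc (-(32 * N)) (32 * N) 0 (256 * N)) =
      hh (1 / 2) (32 * N - -(32 * N)) (256 * N - 0) := pr_LRc (1 / 2) hsub
  rw [h2, hh_dual (by omega) (by omega)]
  have h3 := hc (256 * N - 0 + 1) (32 * N - -(32 * N) - 1) (by omega) (by omega)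
    (by push_cast; omega)
  have e1 : (1 : ℝ) - 1 / 2 = 1 / 2 := by norm_num
  rw [e1]
  linarith

/-- L12c: the level `k` reaches the top with high probability. -/
theorem level_decay : ∃ q : ℝ, 0 < q ∧ q < 1 ∧ ∀ N : ℤ, 1 ≤ N → ∀ S : Finset Edg, Big N ⊆ S →
    ∀ k : ℕ, Pr P S (fun F => ¬ Top (-(32 * N)) (32 * N) (256 * N)
      (DS (-(32 * N)) (32 * N) 0 (256 * N) F k)) ≤ q ^ k := by
  obtain ⟨q, hq0, hq1, hq⟩ := dual_prob
  refine ⟨q, hq0, hq1, ?_⟩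
  intro N hN S hS k
  induction k with
  | zero => rw [pow_zero]; exact Pr_le_one w_ok _ _
  | succ k ih =>
    have hm := markov_DS (a := -(32 * N)) (b := 32 * N) (c := 0) (d := 256 * N) (by omega)
      (S := S) ((dk_sub hN).trans hS) k
      (fun A => ¬ Top (-(32 * N)) (32 * N) (256 * N) A)
      (fun A F => ¬ ∃ x x', (-(32 * N) ≤ x ∧ x < 32 * N) ∧ (-(32 * N) ≤ x' ∧ x' < 32 * N) ∧
        DReach (↑(LRE (-(32 * N)) (32 * N) 0 (256 * N)) \
          (↑F \ ↑(EA (-(32 * N)) (32 * N) 0 (256 * N) A))) (x, 0 - 1) (x', 256 * N))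
      (β := q) ?_ ?_
    · refine le_trans (Pr_mono w_ok ?_) (hm.trans ?_)
      · intro F _ hF
        refine ⟨?_, ?_⟩
        · intro ⟨x, hx, hx2⟩
          exact hF ⟨x, hx, DS_mono (by omega) F k hx2⟩
        · rintro ⟨x, x', hx, hx', hr⟩
          exact hF (next_top (by omega) (by omega) hx hx' hr)
      · rw [pow_succ, mul_comm (q ^ k) q]
        exact mul_le_mul_of_nonneg_left ih hq0.le
    · intro A F _
      have e1 : ((↑(F \ EA (-(32 * N)) (32 * N) 0 (256 * N) A) : Set Edg) \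
          ↑(EA (-(32 * N)) (32 * N) 0 (256 * N) A)) =
          (↑F \ ↑(EA (-(32 * N)) (32 * N) 0 (256 * N) A)) := by
        rw [Finset.coe_sdiff, Set.sdiff_sdiff, Set.union_self]
      rw [e1]
    · intro A _
      refine le_trans (Pr_mono w_ok ?_) (hq N hN S hS)
      rintro F _ hF ⟨x, x', hx, hx', hr⟩
      refine hF ⟨x, x', hx, hx', hr.mono ?_⟩
      rintro e ⟨h1, h2⟩
      exact ⟨h1, fun h3 => h2 h3.1⟩

end Pool.Agent.H389R2.LV
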