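import Pool.Agent.H389R2.LV.Defs

set_option autoImplicit false
set_option maxHeartbeats 1000000

namespace Pool.Agent.H389R2.LV

open H974 Pool.Agent.H160R2.CV Pool.Agent.H389R2.CD

theorem CT_sub {a b c d : ℤ} (hab : a < b) (hcd : c < d) {A : Set Vtx} (hA : Adm a b c d A)
    {f : Vtx} (hf : f ∈ CT a b c d A) : f ∈ St a b c ∧ f ∉ A := by
  have hf' : DReach {e | (dsrc e ∈ St a b c ∧ dsrc e ∉ A) ∧ (dtgt e ∈ St a b c ∧ dtgt e ∉ A)}
    (a, d) f := hf
  clear hf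
  induction hf' with
  | refl =>
    refine ⟨⟨⟨le_rfl, hab⟩, by show c - 1 ≤ d; omega⟩, fun h => ?_⟩
    have h1 := (hA.sub _ h).2.2
    exact lt_irrefl _ h1
  | tail _ hs ih =>
    obtain ⟨e, ⟨h1, h2⟩, ⟨h3, h4⟩ | ⟨h3, h4⟩⟩ := hs
    · rw [← h4]; exact h2
    · rw [← h3]; exact h1

theorem CT_step {a b c d : ℤ} {A : Set Vtx} {e : Edg} (h1 : dsrc e ∈ St a b c)
    (h2 : dtgt e ∈ St a b c) (hA1 : dsrc e ∉ A) (hA2 : dtgt e ∉ A) :
    dsrc e ∈ CT a b c d A ↔ dtgt e ∈ CT a b c d A :=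
  ⟨fun h => Relation.ReflTransGen.tail h ⟨e, ⟨⟨h1, hA1⟩, ⟨h2, hA2⟩⟩, Or.inl ⟨rfl, rfl⟩⟩,
    fun h => Relation.ReflTransGen.tail h ⟨e, ⟨⟨h1, hA1⟩, ⟨h2, hA2⟩⟩, Or.inr ⟨rfl, rfl⟩⟩⟩

theorem G0_of {a b c d : ℤ} (hab : a < b) (hcd : c < d) {A : Set Vtx} (hA : Adm a b c d A)
    {e : Edg} (h : (dsrc e ∈ A ∧ dtgt e ∈ CT a b c d A) ∨ (dsrc e ∈ CT a b c d A ∧ dtgt e ∈ A)) :
    e ∈ G0 a b c d A := by
  refine ⟨?_, h⟩
  obtain ⟨x, y, bo⟩ := e
  have key : ∀ f g : Vtx, f ∈ A → g ∈ CT a b c d A →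
      (a ≤ f.1 ∧ f.1 < b) ∧ (c - 1 ≤ f.2 ∧ f.2 < d) ∧ (a ≤ g.1 ∧ g.1 < b) ∧ c ≤ g.2 := by
    intro f g hf hg
    obtain ⟨h1, h2⟩ := hA.sub f hf
    obtain ⟨⟨h3, h4⟩, h5⟩ := CT_sub hab hcd hA hg
    refine ⟨h1, h2, h3, ?_⟩
    by_contra hlt
    apply h5
    have hg2 : g.2 = c - 1 := by omega
    have : g = (g.1, c - 1) := by rw [← hg2]
    rw [this]
    exact hA.bot _ h3.1 h3.2
  cases bo
  · rw [mem_LRE_false]
    rcases h with ⟨h1, h2⟩ | ⟨h1, h2⟩
    · have := key _ _ h1 h2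
      simp only [dsrc_false, dtgt_mk] at this
      omega
    · have := key _ _ h2 h1
      simp only [dsrc_false, dtgt_mk] at this
      omega
  · rw [mem_LRE_true]
    rcases h with ⟨h1, h2⟩ | ⟨h1, h2⟩
    · have := key _ _ h1 h2
      simp only [dsrc_true, dtgt_mk] at this
      omega
    · have := key _ _ h2 h1
      simp only [dsrc_true, dtgt_mk] at this
      omega

theorem b2_G0 {a b c d : ℤ} (hab : a < b) (hcd : c < d) {A : Set Vtx} (hA : Adm a b c d A)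
    {e : Edg} (h1 : dsrc e ∈ St a b c) (h2 : dtgt e ∈ St a b c) :
    b2 (e ∈ G0 a b c d A) = b2 (dsrc e ∈ CT a b c d A) + b2 (dtgt e ∈ CT a b c d A) := by
  by_cases hs : dsrc e ∈ CT a b c d A
  · by_cases ht : dtgt e ∈ CT a b c d A
    · rw [b2_of hs, b2_of ht, b2_not_of]
      · rfl
      · rintro ⟨_, h | h⟩
        · exact (CT_sub hab hcd hA hs).2 h.1
        · exact (CT_sub hab hcd hA ht).2 h.2
    · rw [b2_of hs, b2_not_of ht, b2_of, add_zero]
      apply G0_of hab hcd hA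
      right
      refine ⟨hs, ?_⟩
      by_contra hn
      exact ht ((CT_step h1 h2 (CT_sub hab hcd hA hs).2 hn).1 hs)
  · by_cases ht : dtgt e ∈ CT a b c d A
    · rw [b2_not_of hs, b2_of ht, b2_of, zero_add]
      apply G0_of hab hcd hA
      left
      refine ⟨?_, ht⟩
      by_contra hn
      exact hs ((CT_step h1 h2 hn (CT_sub hab hcd hA ht).2).2 ht)
    · rw [b2_not_of hs, b2_not_of ht, b2_not_of, add_zero]
      rintro ⟨_, h | h⟩
      · exact ht h.2
      · exact hs h.1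

/-- every vertex of the frontier has a frontier edge -/
theorem V0_edge {a b c d : ℤ} (hab : a < b) (hcd : c < d) {A : Set Vtx} (hA : Adm a b c d A)
    {v : Vtx} (hv : v ∈ V0 a b c d A) : ∃ e ∈ G0 a b c d A, src e = v ∨ tgt e = v := by
  obtain ⟨⟨f, hf, hcf⟩, g, hg, hcg⟩ := hv
  obtain ⟨p, q⟩ := v
  obtain ⟨f1, f2⟩ := f
  obtain ⟨g1, g2⟩ := g
  unfold Cor at hcf hcg
  simp only at hcf hcg
  obtain ⟨⟨hg3, hg4⟩, hg5⟩ := CT_sub hab hcd hA hg
  obtain ⟨hf1, hf2⟩ := hA.sub _ hf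
  simp only at hg3 hg4 hf1 hf2
  -- horizontal edges at `v`
  have hH : ∀ x, (x = p ∨ x = p - 1) → src (x, q, true) = (p, q) ∨ tgt (x, q, true) = (p, q) := by
    rintro x (rfl | rfl)
    · left; rfl
    · right; simp
  have hV : ∀ y, (y = q ∨ y = q - 1) → src (p, y, false) = (p, q) ∨ tgt (p, y, false) = (p, q) := by
    rintro y (rfl | rfl)
    · left; rfl
    · right; simp
  have hHe : ∀ x y y', (x = p ∨ x = p - 1) → (y = q ∨ y = q - 1) → (y' = q ∨ y' = q - 1) →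
      ((x, y) : Vtx) ∈ A → ((x, y') : Vtx) ∈ CT a b c d A →
      ∃ e ∈ G0 a b c d A, src e = (p, q) ∨ tgt e = (p, q) := by
    intro x y y' hx hy hy' h1 h2
    refine ⟨(x, q, true), G0_of hab hcd hA ?_, hH x hx⟩
    simp only [dsrc_true, dtgt_mk]
    rcases hy with rfl | rfl <;> rcases hy' with rfl | rfl
    · exact absurd h1 (CT_sub hab hcd hA h2).2
    · exact Or.inr ⟨h2, h1⟩
    · exact Or.inl ⟨h1, h2⟩
    · exact absurd h1 (CT_sub hab hcd hA h2).2
  have hVe : ∀ x x' y, (x = p ∨ x = p - 1) → (x' = p ∨ x' = p - 1) → (y = q ∨ y = q - 1) →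
      ((x, y) : Vtx) ∈ A → ((x', y) : Vtx) ∈ CT a b c d A →
      ∃ e ∈ G0 a b c d A, src e = (p, q) ∨ tgt e = (p, q) := by
    intro x x' y hx hx' hy h1 h2
    refine ⟨(p, y, false), G0_of hab hcd hA ?_, hV y hy⟩
    simp only [dsrc_false, dtgt_mk]
    rcases hx with rfl | rfl <;> rcases hx' with rfl | rfl
    · exact absurd h1 (CT_sub hab hcd hA h2).2
    · exact Or.inr ⟨h2, h1⟩
    · exact Or.inl ⟨h1, h2⟩
    · exact absurd h1 (CT_sub hab hcd hA h2).2
  -- the face `(f1, g2)`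
  by_cases hm : ((f1, g2) : Vtx) ∈ A
  · exact hVe f1 g1 g2 hcf.1 hcg.1 hcg.2 hm hg
  · -- it is in `CT`
    have hst : ((f1, g2) : Vtx) ∈ St a b c := ⟨hf1, hg4⟩
    have hct : ((f1, g2) : Vtx) ∈ CT a b c d A := by
      by_cases hfg : f1 = g1
      · rw [hfg]; exact hg
      · have hcase : (f1 = p ∧ g1 = p - 1) ∨ (f1 = p - 1 ∧ g1 = p) := by omega
        rcases hcase with ⟨h1, h2⟩ | ⟨h1, h2⟩
        · have e1 : dsrc (p, g2, false) = (g1, g2) := by simp [h2]
          have e2 : dtgt (p, g2, false) = (f1, g2) := by simp [h1]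
          rw [← e2]
          refine (CT_step (e := (p, g2, false)) ?_ ?_ ?_ ?_).1 ?_
          · rw [e1]; exact ⟨hg3, hg4⟩
          · rw [e2]; exact hst
          · rw [e1]; exact hg5
          · rw [e2]; exact hm
          · rw [e1]; exact hg
        · have e1 : dsrc (p, g2, false) = (f1, g2) := by simp [h1]
          have e2 : dtgt (p, g2, false) = (g1, g2) := by simp [h2]
          rw [← e1]
          refine (CT_step (e := (p, g2, false)) ?_ ?_ ?_ ?_).2 ?_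
          · rw [e1]; exact hst
          · rw [e2]; exact ⟨hg3, hg4⟩
          · rw [e1]; exact hm
          · rw [e2]; exact hg5
          · rw [e2]; exact hg
    exact hHe f1 f2 g2 hcf.1 hcf.2 hcg.2 hf hct

/-- L3: the frontier is connected. -/
theorem front_conn {a b c d : ℤ} (hab : a < b) (hcd : c < d) {A : Set Vtx} (hA : Adm a b c d A)
    {u v : Vtx} (hu : u ∈ V0 a b c d A) (hv : v ∈ V0 a b c d A) : Reach (G0 a b c d A) u v := by
  set G : Set Edg := G0 a b c d A with hG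
  set G1 : Set Edg := {e | e ∈ G ∧ Reach G u (src e)} with hG1
  have hend : ∀ e ∈ G, Reach G (src e) (tgt e) := fun e he =>
    Adj.reach ⟨e, he, Or.inl ⟨rfl, rfl⟩⟩
  have hG1w : ∀ (e : Edg) (w : Vtx), (src e = w ∨ tgt e = w) →
      b2 (e ∈ G1) = b2 (e ∈ G) * b2 (Reach G u w) := by
    intro e w hw
    by_cases he : e ∈ G
    · rw [b2_of he, one_mul]
      apply b2_congr
      constructor
      · rintro ⟨_, h⟩
        rcases hw with hw | hw
        · rw [← hw]; exact h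
        · rw [← hw]; exact h.trans (hend e he)
      · intro h
        refine ⟨he, ?_⟩
        rcases hw with hw | hw
        · rw [hw]; exact h
        · rw [← hw] at h; exact h.trans (hend e he).symm
    · rw [b2_not_of he, zero_mul, b2_not_of]
      exact fun h => he h.1
  have hpar : ∀ x j, a < x → x < b → c ≤ j →
      b2 ((x, j, true) ∈ G1) + b2 ((x - 1, j, true) ∈ G1) + b2 ((x, j, false) ∈ G1) +
        b2 ((x, j - 1, false) ∈ G1) = 0 := by
    intro x j h1 h2 h3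
    rw [hG1w (x, j, true) (x, j) (Or.inl rfl), hG1w (x - 1, j, true) (x, j) (Or.inr (by simp)),
      hG1w (x, j, false) (x, j) (Or.inl rfl), hG1w (x, j - 1, false) (x, j) (Or.inr (by simp)),
      ← add_mul, ← add_mul, ← add_mul]
    have hS : ∀ x' y', (x' = x ∨ x' = x - 1) → (y' = j ∨ y' = j - 1) →
        ((x', y') : Vtx) ∈ St a b c := by
      intro x' y' hx' hy'
      refine ⟨?_, ?_⟩
      · show a ≤ x' ∧ x' < b; omega
      · show c - 1 ≤ y'; omega
    rw [hG, b2_G0 (e := (x, j, true)) hab hcd hA (hS _ _ (Or.inl rfl) (Or.inr rfl))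
        (hS _ _ (Or.inl rfl) (Or.inl rfl)),
      b2_G0 (e := (x - 1, j, true)) hab hcd hA (hS _ _ (Or.inr rfl) (Or.inr rfl))
        (hS _ _ (Or.inr rfl) (Or.inl rfl)),
      b2_G0 (e := (x, j, false)) hab hcd hA (hS _ _ (Or.inr rfl) (Or.inl rfl))
        (hS _ _ (Or.inl rfl) (Or.inl rfl)),
      b2_G0 (e := (x, j - 1, false)) hab hcd hA (hS _ _ (Or.inr rfl) (Or.inr rfl))
        (hS _ _ (Or.inl rfl) (Or.inr rfl))]
    simp only [dsrc_true, dsrc_false, dtgt_mk]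
    have e1 := zmod2_add_self (b2 (((x, j) : Vtx) ∈ CT a b c d A))
    have e2 := zmod2_add_self (b2 (((x - 1, j) : Vtx) ∈ CT a b c d A))
    have e3 := zmod2_add_self (b2 (((x, j - 1) : Vtx) ∈ CT a b c d A))
    have e4 := zmod2_add_self (b2 (((x - 1, j - 1) : Vtx) ∈ CT a b c d A))
    linear_combination (b2 (Reach (G0 a b c d A) u (x, j))) * (e1 + e2 + e3 + e4)
  -- the potential
  set f : ℤ → ℤ → ZMod 2 := fun x y => ∑ j ∈ Finset.Ico c (y + 1), b2 ((x, j, true) ∈ G1) with hf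
  have fV : ∀ x y, c ≤ y → f x y = f x (y - 1) + b2 ((x, y, true) ∈ G1) := by
    intro x y hy
    simp only [hf, sub_add_cancel]
    exact sum_Ico_int_succ hy _
  have fH : ∀ (n : ℕ) (x : ℤ), a < x → x < b →
      f x (c - 1 + n) + f (x - 1) (c - 1 + n) = b2 ((x, c - 1 + n, false) ∈ G1) := by
    intro n x h1 h2
    induction n with
    | zero =>
      have h3 : ((x, c - 1 + ((0 : ℕ) : ℤ), false) : Edg) ∉ G1 := by
        rintro ⟨⟨h, _⟩, _⟩
        rw [mem_LRE_false] at h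
        push_cast at h
        omega
      rw [b2_not_of h3]
      simp [hf]
    | succ n ih =>
      have e1 : c - 1 + ((n + 1 : ℕ) : ℤ) = c + n := by push_cast; ring
      have e2 : c + (n : ℤ) - 1 = c - 1 + n := by ring
      rw [e1, fV x (c + n) (by omega), fV (x - 1) (c + n) (by omega), e2]
      have h3 := hpar x (c + n) h1 h2 (by omega)
      rw [e2] at h3
      have h4 := zmod2_add_self (b2 ((x, c + (n : ℤ), false) ∈ G1))
      linear_combination ih + h3 - h4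
  have fH' : ∀ x y, a < x → x < b → c - 1 ≤ y → f x y + f (x - 1) y = b2 ((x, y, false) ∈ G1) := by
    intro x y h1 h2 h3
    obtain ⟨n, hn⟩ := Int.eq_ofNat_of_zero_le (sub_nonneg.mpr h3)
    have e1 : y = c - 1 + n := by omega
    rw [e1]
    exact fH n x h1 h2
  -- jumps
  have jump : ∀ e : Edg, dsrc e ∈ St a b c → dtgt e ∈ St a b c →
      f (dsrc e).1 (dsrc e).2 + f (dtgt e).1 (dtgt e).2 = b2 (e ∈ G1) := by
    rintro ⟨x, y, _ | _⟩ ⟨h1, h2⟩ ⟨h3, h4⟩
    · simp only [dsrc_false, dtgt_mk] at h1 h2 h3 h4 ⊢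
      rw [add_comm]
      exact fH' x y (by omega) (by omega) h2
    · simp only [dsrc_true, dtgt_mk] at h1 h2 h3 h4 ⊢
      rw [fV x y (by omega)]
      have := zmod2_add_self (f x (y - 1))
      linear_combination this
  have eq_of_zero : ∀ s t : ZMod 2, s + t = 0 → t = s := by decide
  have hAst : ∀ g ∈ A, g ∈ St a b c := fun g hg => ⟨(hA.sub g hg).1, (hA.sub g hg).2.1⟩
  have fA : ∀ g ∈ A, f g.1 g.2 = f a (c - 1) := by
    intro g hg
    have h := hA.conn g hg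
    clear hg
    induction h with
    | refl => rfl
    | @tail g' g'' _ hs ih =>
      obtain ⟨e, ⟨h1, h2⟩, h3⟩ := hs
      have hj := jump e (hAst _ h1) (hAst _ h2)
      rw [b2_not_of] at hj
      · rcases h3 with ⟨h3, h4⟩ | ⟨h3, h4⟩
        · rw [h3, h4] at hj
          rw [eq_of_zero _ _ hj]; exact ih
        · rw [h3, h4] at hj
          rw [← eq_of_zero _ _ hj]; exact ih
      · rintro ⟨⟨_, h | h⟩, _⟩
        · exact (CT_sub hab hcd hA h.2).2 h2
        · exact (CT_sub hab hcd hA h.1).2 h1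
  have fC : ∀ g ∈ CT a b c d A, f g.1 g.2 = f a d := by
    intro g hg
    have h : DReach {e | (dsrc e ∈ St a b c ∧ dsrc e ∉ A) ∧ (dtgt e ∈ St a b c ∧ dtgt e ∉ A)}
      (a, d) g := hg
    clear hg
    induction h with
    | refl => rfl
    | @tail g' g'' _ hs ih =>
      obtain ⟨e, ⟨⟨h1, h1'⟩, h2, h2'⟩, h3⟩ := hs
      have hj := jump e h1 h2
      rw [b2_not_of] at hj
      · rcases h3 with ⟨h3, h4⟩ | ⟨h3, h4⟩
        · rw [h3, h4] at hj
          rw [eq_of_zero _ _ hj]; exact ih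
        · rw [h3, h4] at hj
          rw [← eq_of_zero _ _ hj]; exact ih
      · rintro ⟨⟨_, h | h⟩, _⟩
        · exact h1' h.1
        · exact h2' h.2
  have jG : ∀ e ∈ G, b2 (e ∈ G1) = f a (c - 1) + f a d := by
    rintro e ⟨_, ⟨h1, h2⟩ | ⟨h1, h2⟩⟩
    · rw [← jump e (hAst _ h1) (CT_sub hab hcd hA h2).1, fA _ h1, fC _ h2]
    · rw [← jump e (CT_sub hab hcd hA h1).1 (hAst _ h2), fA _ h2, fC _ h1, add_comm]
  obtain ⟨eu, heu, hu'⟩ := V0_edge hab hcd hA hu
  obtain ⟨ev, hev, hv'⟩ := V0_edge hab hcd hA hv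
  have h1 : eu ∈ G1 := by
    refine ⟨heu, ?_⟩
    rcases hu' with h | h
    · rw [h]; exact Reach.refl _ _
    · rw [← h]; exact (hend eu heu).symm
  have h2 : b2 (ev ∈ G1) = 1 := by
    rw [jG ev hev, ← jG eu heu, b2_of h1]
  have h3 : ev ∈ G1 := by
    by_contra hn
    rw [b2_not_of hn] at h2
    exact zero_ne_one h2
  rcases hv' with h | h
  · rw [← h]; exact h3.2
  · rw [← h]; exact h3.2.trans (hend ev hev)

end Pool.Agent.H389R2.LV
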