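import Pool.Agent.H389R2.LV.AdmL
import Pool.Agent.H389R2.LV.Front

set_option autoImplicit false
set_option maxHeartbeats 1000000

namespace Pool.Agent.H389R2.LV

open H974 Pool.Agent.H160R2.CV Pool.Agent.H389R2.CD

/-- all faces at a vertex of the rectangle are joined by the edges at this vertex -/
theorem turn {a b c d : ℤ} (hcd : c < d) {S : Set Edg} {w : Vtx}
    (hw : (a ≤ w.1 ∧ w.1 ≤ b) ∧ (c ≤ w.2 ∧ w.2 ≤ d))
    (hS : ∀ e ∈ LRE a b c d, (src e = w ∨ tgt e = w) → e ∈ S) {g g' : Vtx}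
    (hg : g ∈ Phi a b c d) (hg' : g' ∈ Phi a b c d) (h : Cor w g) (h' : Cor w g') :
    DReach (S ∩ ↑(LRE a b c d)) g g' := by
  obtain ⟨p, q⟩ := w
  simp only at hw
  obtain ⟨⟨hp1, hp2⟩, hq1, hq2⟩ := hw
  have V : ∀ x, (x = p ∨ x = p - 1) → a ≤ x → x < b →
      DReach (S ∩ ↑(LRE a b c d)) (x, q - 1) (x, q) := by
    intro x hx h1 h2
    have hm : ((x, q, true) : Edg) ∈ LRE a b c d := by
      rw [mem_LRE_true]; exact ⟨h1, h2, hq1, hq2⟩
    refine DAdj.reach ⟨(x, q, true), ⟨hS _ hm ?_, hm⟩, Or.inl ⟨rfl, rfl⟩⟩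
    rcases hx with rfl | rfl
    · left; rfl
    · right; simp
  obtain ⟨y, hy, hy1, hy2⟩ : ∃ y, (y = q ∨ y = q - 1) ∧ c ≤ y ∧ y < d := by
    rcases lt_or_ge q d with h | h
    · exact ⟨q, Or.inl rfl, hq1, h⟩
    · exact ⟨q - 1, Or.inr rfl, by omega, by omega⟩
  have H : a < p → p < b → DReach (S ∩ ↑(LRE a b c d)) (p - 1, y) (p, y) := by
    intro h1 h2
    have hm : ((p, y, false) : Edg) ∈ LRE a b c d := by
      rw [mem_LRE_false]; exact ⟨h1, h2, hy1, hy2⟩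
    refine DAdj.reach ⟨(p, y, false), ⟨hS _ hm ?_, hm⟩, Or.inl ⟨rfl, rfl⟩⟩
    rcases hy with rfl | rfl
    · left; rfl
    · right; simp
  have V' : ∀ f ∈ Phi a b c d, Cor (p, q) f → DReach (S ∩ ↑(LRE a b c d)) f (f.1, y) := by
    rintro ⟨f1, f2⟩ ⟨⟨h1, h2⟩, _⟩ ⟨h3, h4⟩
    simp only at h1 h2 h3 h4 ⊢
    rcases h4 with rfl | rfl <;> rcases hy with rfl | rfl
    · exact DReach.refl _ _
    · exact (V f1 h3 h1 h2).symm
    · exact V f1 h3 h1 h2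
    · exact DReach.refl _ _
  refine (V' g hg h).trans (DReach.trans ?_ (V' g' hg' h').symm)
  obtain ⟨g1, g2⟩ := g
  obtain ⟨g1', g2'⟩ := g'
  obtain ⟨⟨h1, h2⟩, _⟩ := hg
  obtain ⟨⟨h3, h4⟩, _⟩ := hg'
  obtain ⟨h5, _⟩ := h
  obtain ⟨h6, _⟩ := h'
  simp only at h1 h2 h3 h4 h5 h6 ⊢
  rcases h5 with rfl | rfl <;> rcases h6 with h6 | h6
  · rw [h6]; exact DReach.refl _ _
  · rw [h6]; exact (H (by omega) (by omega)).symm
  · rw [h6]; exact H (by omega) (by omega)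
  · rw [h6]; exact DReach.refl _ _

/-- the edges of the cluster of `s` -/
def EC (a b c d : ℤ) (F : Finset Edg) (s : Vtx) : Set Edg :=
  {e | (e ∈ F ∧ e ∈ LRE a b c d) ∧ Reach (↑F ∩ ↑(LRE a b c d)) s (src e)}

theorem EC_path {a b c d : ℤ} {F : Finset Edg} {s z : Vtx}
    (h : Reach (↑F ∩ ↑(LRE a b c d)) s z) : Reach (EC a b c d F s ∩ ↑(LRE a b c d)) s z := by
  induction h with
  | refl => exact Reach.refl _ _
  | @tail w w' hw hs ih =>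
    obtain ⟨e, ⟨heF, heL⟩, hc⟩ := hs
    refine Relation.ReflTransGen.tail ih ⟨e, ⟨⟨⟨heF, heL⟩, ?_⟩, heL⟩, hc⟩
    rcases hc with ⟨h1, h2⟩ | ⟨h1, h2⟩
    · rw [h1]; exact hw
    · rw [h1]; exact Relation.ReflTransGen.tail hw ⟨e, ⟨heF, heL⟩, Or.inr ⟨h1, h2⟩⟩

theorem not_EC_of {a b c d : ℤ} {F : Finset Edg} {s w : Vtx}
    (hw : ¬ Reach (↑F ∩ ↑(LRE a b c d)) s w) {e : Edg} (h : src e = w ∨ tgt e = w) :
    e ∈ (EC a b c d F s)ᶜ := by
  rintro ⟨⟨h1, h2⟩, h3⟩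
  rcases h with h | h
  · rw [h] at h3; exact hw h3
  · exact hw (Relation.ReflTransGen.tail h3 ⟨e, ⟨h1, h2⟩, Or.inl ⟨rfl, h⟩⟩)

/-- the endpoints of an edge of the rectangle share a face of the rectangle -/
theorem share {a b c d : ℤ} {e : Edg} (he : e ∈ LRE a b c d) :
    dtgt e ∈ Phi a b c d ∧ Cor (src e) (dtgt e) ∧ Cor (tgt e) (dtgt e) ∧
    ((a ≤ (src e).1 ∧ (src e).1 ≤ b) ∧ (c ≤ (src e).2 ∧ (src e).2 ≤ d)) ∧
    ((a ≤ (tgt e).1 ∧ (tgt e).1 ≤ b) ∧ (c ≤ (tgt e).2 ∧ (tgt e).2 ≤ d)) := by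
  obtain ⟨x, y, _ | _⟩ := e
  · rw [mem_LRE_false] at he
    simp only [dtgt_mk, src_mk, tgt_false, Phi, Cor, Set.mem_ofPred_eq, true_or, true_and,
      and_true]
    omega
  · rw [mem_LRE_true] at he
    simp only [dtgt_mk, src_mk, tgt_true, Phi, Cor, Set.mem_ofPred_eq, true_or, true_and,
      and_true]
    omega

theorem level_bottom {a b c d : ℤ} (hcd : c < d) {F : Finset Edg} {s : Vtx} (k : ℕ)
    (hk : ∀ j < k, ∀ z, Reach (↑F ∩ ↑(LRE a b c d)) s z → z ∉ PS a b c d F j) :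
    ∀ f ∈ DS a b c d F k, ∃ x, (a ≤ x ∧ x < b) ∧
      DReach ((EC a b c d F s)ᶜ ∩ ↑(LRE a b c d)) (x, c - 1) f := by
  have hsub : (↑(LRE a b c d) \ ↑F : Set Edg) ⊆ (EC a b c d F s)ᶜ ∩ ↑(LRE a b c d) := by
    rintro e ⟨h1, h2⟩
    exact ⟨fun h => h2 h.1.1, h1⟩
  induction k with
  | zero =>
    rintro f ⟨x, hx, h⟩
    exact ⟨x, hx, h.mono hsub⟩
  | succ k ih =>
    rintro f ⟨v, hv, g, hg, hvg, hgf⟩
    have hv' := hv
    obtain ⟨f0, hf0, u, huf, hu1, hu2, huv⟩ := hv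
    obtain ⟨x, hx, hxf⟩ := ih (fun j hj => hk j (by omega)) f0 hf0
    refine ⟨x, hx, (hxf.trans ?_).trans (hgf.mono hsub)⟩
    -- all vertices of the path are outside of the cluster
    have hout : ∀ w, Reach (↑F ∩ ↑(LRE a b c d)) u w →
        ¬ Reach (↑F ∩ ↑(LRE a b c d)) s w := by
      intro w hw hsw
      exact hk k (Nat.lt_succ_self k) w hsw ⟨f0, hf0, u, huf, hu1, hu2, hw⟩
    have key : ∀ w, Reach (↑F ∩ ↑(LRE a b c d)) u w →
        ((a ≤ w.1 ∧ w.1 ≤ b) ∧ (c ≤ w.2 ∧ w.2 ≤ d)) ∧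
        ∀ g ∈ Phi a b c d, Cor w g → DReach ((EC a b c d F s)ᶜ ∩ ↑(LRE a b c d)) f0 g := by
      intro w hw
      induction hw with
      | refl =>
        refine ⟨⟨hu1, hu2⟩, fun g hg hug => ?_⟩
        exact turn hcd ⟨hu1, hu2⟩ (fun e _ he => not_EC_of (hout u (Reach.refl _ _)) he)
          (DS_sub hcd F k hf0) hg huf hug
      | @tail w w' hw hs ih2 =>
        have hw' : Reach (↑F ∩ ↑(LRE a b c d)) u w' := Relation.ReflTransGen.tail hw hs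
        obtain ⟨e, ⟨heF, heL⟩, hc⟩ := hs
        obtain ⟨s1, s2, s3, s4, s5⟩ := share heL
        have hw'r : (a ≤ w'.1 ∧ w'.1 ≤ b) ∧ (c ≤ w'.2 ∧ w'.2 ≤ d) := by
          rcases hc with ⟨h1, h2⟩ | ⟨h1, h2⟩
          · rw [← h2]; exact s5
          · rw [← h1]; exact s4
        have hcw : Cor w (dtgt e) ∧ Cor w' (dtgt e) := by
          rcases hc with ⟨h1, h2⟩ | ⟨h1, h2⟩
          · rw [← h1, ← h2]; exact ⟨s2, s3⟩
          · rw [← h1, ← h2]; exact ⟨s3, s2⟩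
        refine ⟨hw'r, fun g hg hug => ?_⟩
        refine (ih2.2 (dtgt e) s1 hcw.1).trans ?_
        exact turn hcd hw'r (fun e _ he => not_EC_of (hout w' hw') he) s1 hg hcw.2 hug
    exact (key v huv).2 g hg hvg

/-- L4: if the cluster of a left-right crossing avoids the levels below `k`, then level `k` does
not reach the top. -/
theorem not_top {a b c d : ℤ} (hab : a < b) (hcd : c < d) {F : Finset Edg} {y y' : ℤ}
    (hy : c ≤ y ∧ y ≤ d) (hy' : c ≤ y' ∧ y' ≤ d)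
    (h : Reach (↑F ∩ ↑(LRE a b c d)) (a, y) (b, y')) {k : ℕ}
    (hk : ∀ j < k, ∀ z, Reach (↑F ∩ ↑(LRE a b c d)) (a, y) z → z ∉ PS a b c d F j) :
    ¬ Top a b d (DS a b c d F k) := by
  rintro ⟨x', hx', hf⟩
  obtain ⟨x, hx, hr⟩ := level_bottom hcd k hk _ hf
  exact no_both hcd.le hy' hx (EC_path h) hr

theorem CT_hstep {a b c d : ℤ} {A : Set Vtx} {x x' y : ℤ} (h : ((x, y) : Vtx) ∈ St a b c)
    (hA : ((x, y) : Vtx) ∉ A) (hct : ((x, y) : Vtx) ∈ CT a b c d A)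
    (h' : ((x', y) : Vtx) ∈ St a b c) (hA' : ((x', y) : Vtx) ∉ A)
    (hx : x' = x ∨ x' = x - 1 ∨ x' = x + 1) : ((x', y) : Vtx) ∈ CT a b c d A := by
  rcases hx with rfl | rfl | rfl
  · exact hct
  · exact (CT_step (e := (x, y, false)) h' h hA' hA).2 hct
  · have e1 : dsrc (x + 1, y, false) = (x, y) := by simp
    refine (CT_step (e := (x + 1, y, false)) ?_ h' ?_ hA').1 ?_
    · rw [e1]; exact h
    · rw [e1]; exact hA
    · rw [e1]; exact hct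

theorem CT_vstep {a b c d : ℤ} {A : Set Vtx} {x y y' : ℤ} (h : ((x, y) : Vtx) ∈ St a b c)
    (hA : ((x, y) : Vtx) ∉ A) (hct : ((x, y) : Vtx) ∈ CT a b c d A)
    (h' : ((x, y') : Vtx) ∈ St a b c) (hA' : ((x, y') : Vtx) ∉ A)
    (hy : y' = y ∨ y' = y - 1 ∨ y' = y + 1) : ((x, y') : Vtx) ∈ CT a b c d A := by
  rcases hy with rfl | rfl | rfl
  · exact hct
  · exact (CT_step (e := (x, y, true)) h' h hA' hA).2 hct
  · have e1 : dsrc (x, y + 1, true) = (x, y) := by simp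
    refine (CT_step (e := (x, y + 1, true)) ?_ h' ?_ hA').1 ?_
    · rw [e1]; exact h
    · rw [e1]; exact hA
    · rw [e1]; exact hct

/-- L5: if it meets level `k` for the first time, then it contains a vertex of the frontier. -/
theorem meets_front {a b c d : ℤ} (hab : a < b) (hcd : c < d) {F : Finset Edg} {y y' : ℤ}
    (hy : c ≤ y ∧ y ≤ d) (hy' : c ≤ y' ∧ y' ≤ d)
    (h : Reach (↑F ∩ ↑(LRE a b c d)) (a, y) (b, y')) {k : ℕ}
    (hk : ∀ j < k, ∀ z, Reach (↑F ∩ ↑(LRE a b c d)) (a, y) z → z ∉ PS a b c d F j)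
    (hk2 : ∃ z, Reach (↑F ∩ ↑(LRE a b c d)) (a, y) z ∧ z ∈ PS a b c d F k) :
    ∃ z, Reach (↑F ∩ ↑(LRE a b c d)) (a, y) z ∧ z ∈ V0 a b c d (DS a b c d F k) := by
  by_contra hcon
  push Not at hcon
  have hA : Adm a b c d (DS a b c d F k) := DS_adm hab hcd (not_top hab hcd hy hy' h hk)
  set A := DS a b c d F k with hAdef
  -- having a face of `CT` is preserved along the cluster
  have hstep : ∀ w w', Reach (↑F ∩ ↑(LRE a b c d)) (a, y) w →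
      Adj (↑F ∩ ↑(LRE a b c d)) w w' → (∃ g ∈ CT a b c d A, Cor w g) →
      ∃ g ∈ CT a b c d A, Cor w' g := by
    rintro w w' hw ⟨e, ⟨heF, heL⟩, hc⟩ ⟨g, hg, hwg⟩
    obtain ⟨s1, s2, s3, s4, s5⟩ := share heL
    have hcw : Cor w (dtgt e) ∧ Cor w' (dtgt e) := by
      rcases hc with ⟨h1, h2⟩ | ⟨h1, h2⟩
      · rw [← h1, ← h2]; exact ⟨s2, s3⟩
      · rw [← h1, ← h2]; exact ⟨s3, s2⟩
    refine ⟨dtgt e, ?_, hcw.2⟩
    have hno : ∀ f, Cor w f → f ∉ A := fun f hf hfA => hcon w hw ⟨⟨f, hfA, hf⟩, g, hg, hwg⟩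
    obtain ⟨hgS, hgA⟩ := CT_sub hab hcd hA hg
    have hfw := hcw.1
    generalize dtgt e = f at s1 hfw
    obtain ⟨f1, f2⟩ := f
    obtain ⟨g1, g2⟩ := g
    obtain ⟨p, q⟩ := w
    obtain ⟨⟨h1, h2⟩, h3, h4⟩ := s1
    obtain ⟨⟨h5, h6⟩, h7⟩ := hgS
    have hwg' := hwg
    have hfw' := hfw
    obtain ⟨c1, c2⟩ := hwg'
    obtain ⟨c3, c4⟩ := hfw'
    simp only at h1 h2 h3 h4 h5 h6 h7 c1 c2 c3 c4
    have hmS : ((f1, g2) : Vtx) ∈ St a b c := ⟨⟨h1, h2⟩, h7⟩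
    have hmA : ((f1, g2) : Vtx) ∉ A := hno _ ⟨c3, c2⟩
    have hm : ((f1, g2) : Vtx) ∈ CT a b c d A :=
      CT_hstep ⟨⟨h5, h6⟩, h7⟩ hgA hg hmS hmA (by omega)
    exact CT_vstep hmS hmA hm ⟨⟨h1, h2⟩, h3⟩ (hno _ hfw) (by omega)
  -- no vertex of the cluster has a face in `CT`
  obtain ⟨z, hz, f0, hf0, u, huf, hu1, hu2, huz⟩ := hk2
  have hu : Reach (↑F ∩ ↑(LRE a b c d)) (a, y) u := hz.trans huz.symm
  have hnoCT : ∀ w, Reach (↑F ∩ ↑(LRE a b c d)) (a, y) w →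
      ¬ ∃ g ∈ CT a b c d A, Cor w g := by
    intro w hw hg
    have hwu : Reach (↑F ∩ ↑(LRE a b c d)) w u := hw.symm.trans hu
    have : ∀ v, Reach (↑F ∩ ↑(LRE a b c d)) w v → ∃ g ∈ CT a b c d A, Cor v g := by
      intro v hv
      induction hv with
      | refl => exact hg
      | @tail v v' hv hs ih => exact hstep v v' (hw.trans hv) hs ih
    obtain ⟨g, hg1, hg2⟩ := this u hwu
    exact hcon u hu ⟨⟨f0, hf0, huf⟩, g, hg1, hg2⟩
  -- the column `a`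
  have hbotA : ((a, c - 1) : Vtx) ∈ A := hA.bot a le_rfl hab
  have hcol : ∀ n : ℕ, c - 1 ≤ d - n → (∀ j, d - n ≤ j → ((a, j) : Vtx) ∉ A) →
      ((a, d - (n : ℤ)) : Vtx) ∈ CT a b c d A ∧
      DReach ((EC a b c d F (a, y))ᶜ ∩ ↑(LRE a b c d)) (a, d - (n : ℤ)) (a, d) := by
    intro n
    induction n with
    | zero =>
      intro _ _
      simp only [Nat.cast_zero, sub_zero]
      exact ⟨DReach.refl _ _, DReach.refl _ _⟩
    | succ n ih =>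
      intro h1 h2
      push_cast at h1 h2 ⊢
      obtain ⟨ih1, ih2⟩ := ih (by omega) (fun j hj => h2 j (by omega))
      have e1 : d - ((n : ℤ) + 1) = d - n - 1 := by ring
      rw [e1] at h1 h2 ⊢
      have hCT : ((a, d - (n : ℤ) - 1) : Vtx) ∈ CT a b c d A := by
        refine CT_vstep (y := d - n) ⟨⟨le_rfl, hab⟩, ?_⟩ (h2 _ (by omega)) ih1
          ⟨⟨le_rfl, hab⟩, h1⟩ (h2 _ le_rfl) (Or.inr (Or.inl rfl))
        show c - 1 ≤ d - (n : ℤ)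
        omega
      refine ⟨hCT, DReach.trans (DAdj.reach ?_) ih2⟩
      have hm : ((a, d - (n : ℤ), true) : Edg) ∈ LRE a b c d := by
        rw [mem_LRE_true]; omega
      refine ⟨(a, d - (n : ℤ), true), ⟨?_, hm⟩, Or.inl ⟨rfl, rfl⟩⟩
      refine not_EC_of (w := (a, d - (n : ℤ))) (fun hr => hnoCT _ hr ?_) (Or.inl rfl)
      exact ⟨_, ih1, ⟨Or.inl rfl, Or.inl rfl⟩⟩
  -- the highest face of `A` in the column `a`
  have hex : ∃ n : ℕ, ((a, d - (n : ℤ)) : Vtx) ∈ A := by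
    refine ⟨(d - (c - 1)).toNat, ?_⟩
    have : d - ((d - (c - 1)).toNat : ℤ) = c - 1 := by omega
    rw [this]; exact hbotA
  classical
  have hfind := Nat.find_spec hex
  set n := Nat.find hex with hn
  have hn0 : n ≠ 0 := by
    intro h0
    rw [h0] at hfind
    have := (hA.sub _ hfind).2.2
    simp at this
  obtain ⟨m, hm⟩ : ∃ m, n = m + 1 := ⟨n - 1, by omega⟩
  have hlow := (hA.sub _ hfind).2.1
  simp only at hlow
  rw [hm] at hfind hlow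
  push_cast at hfind hlow
  have hnot : ∀ j, d - (m : ℤ) ≤ j → ((a, j) : Vtx) ∉ A := by
    intro j hj hjA
    have hjd : j < d := (hA.sub _ hjA).2.2
    have : (d - j).toNat < n := by omega
    apply Nat.find_min hex this
    have e1 : d - ((d - j).toNat : ℤ) = j := by omega
    rw [e1]; exact hjA
  obtain ⟨hc1, hc2⟩ := hcol m (by omega) hnot
  obtain ⟨x, hx, hr⟩ := level_bottom hcd k hk _ hfind
  have hlast : DAdj ((EC a b c d F (a, y))ᶜ ∩ ↑(LRE a b c d)) (a, d - ((m : ℤ) + 1))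
      (a, d - (m : ℤ)) := by
    have hmem : ((a, d - (m : ℤ), true) : Edg) ∈ LRE a b c d := by
      rw [mem_LRE_true]; omega
    refine ⟨(a, d - (m : ℤ), true), ⟨?_, hmem⟩, Or.inl ⟨?_, rfl⟩⟩
    · refine not_EC_of (w := (a, d - (m : ℤ))) (fun hr => hnoCT _ hr ?_) (Or.inl rfl)
      exact ⟨_, hc1, ⟨Or.inl rfl, Or.inl rfl⟩⟩
    · simp only [dsrc_true]
      congr 1
      ring
  exact no_both hcd.le hy' hx (EC_path h) ((hr.trans hlast.reach).trans hc2)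

end Pool.Agent.H389R2.LV
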