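import Pool.Agent.H389R2.LV.Stop

set_option autoImplicit false
set_option maxHeartbeats 1000000

namespace Pool.Agent.H389R2.LV

open H974 Pool.Agent.H160R2.CV Pool.Agent.H389R2.CD

/-- Moving a connection back. -/
theorem reach_back {s t : ℤ} {H : Finset Edg} {a b c d : ℤ} {u v : Vtx}
    (h : Reach (↑((trl s t).mp H) ∩ ↑(RE a b c d)) u v) :
    Reach (↑H ∩ ↑(RE (a - s) (b - s) (c - t) (d - t))) (u.1 - s, u.2 - t) (v.1 - s, v.2 - t) := by
  have h1 := (trl s t).inv.reach h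
  refine Reach.mono ?_ h1
  rintro _ ⟨⟨x, y, bo⟩, ⟨he, hr⟩, rfl⟩
  have e1 : (trl s t).inv.φ (x, y, bo) = (x - s, y - t, bo) := rfl
  rw [e1]
  refine ⟨?_, ?_⟩
  · rw [Finset.mem_coe, LSym.mem_mp, trl_φs] at he
    exact he
  · cases bo
    · simp only [Finset.mem_coe, mem_RE_false] at hr ⊢; omega
    · simp only [Finset.mem_coe, mem_RE_true] at hr ⊢; omega

/-- Moving a connection. -/
theorem reach_fwd {s t : ℤ} {H : Finset Edg} {a b c d : ℤ} {u v : Vtx}
    (h : Reach (↑H ∩ ↑(RE a b c d)) u v) :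
    Reach (↑((trl s t).mp H) ∩ ↑(RE (a + s) (b + s) (c + t) (d + t)))
      (u.1 + s, u.2 + t) (v.1 + s, v.2 + t) := by
  have h1 := (trl s t).reach h
  refine Reach.mono ?_ h1
  rintro _ ⟨⟨x, y, bo⟩, ⟨he, hr⟩, rfl⟩
  rw [trl_φ]
  refine ⟨?_, ?_⟩
  · rw [Finset.mem_coe, LSym.mem_mp, trl_φs]
    have e1 : ((x + s - s, y + t - t, bo) : Edg) = (x, y, bo) := by
      rw [add_sub_cancel_right, add_sub_cancel_right]
    rw [e1]
    exact he
  · cases bo
    · simp only [Finset.mem_coe, mem_RE_false] at hr ⊢; omega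
    · simp only [Finset.mem_coe, mem_RE_true] at hr ⊢; omega

theorem dreach_vert (P : Vtx → Prop) (i j : ℤ) (n : ℕ)
    (h : ∀ k, j ≤ k → k ≤ j + n → P (i, k)) :
    DReach {e | P (dsrc e) ∧ P (dtgt e)} (i, j) (i, j + n) := by
  induction n with
  | zero => simpa using DReach.refl _ _
  | succ n ih =>
    have h1 := ih (fun k h1 h2 => h k h1 (by push_cast; omega))
    refine h1.trans (DAdj.reach ⟨(i, j + n + 1, true), ⟨?_, ?_⟩, Or.inl ⟨?_, ?_⟩⟩)
    · rw [dsrc_true]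
      exact h _ (by omega) (by push_cast; omega)
    · rw [dtgt_mk]
      exact h _ (by omega) (by push_cast; omega)
    · rw [dsrc_true, add_sub_cancel_right]
    · rw [dtgt_mk]; push_cast; rw [add_assoc]

theorem dreach_hor (P : Vtx → Prop) (i j : ℤ) (n : ℕ)
    (h : ∀ k, i ≤ k → k ≤ i + n → P (k, j)) :
    DReach {e | P (dsrc e) ∧ P (dtgt e)} (i, j) (i + n, j) := by
  induction n with
  | zero => simpa using DReach.refl _ _
  | succ n ih =>
    have h1 := ih (fun k h1 h2 => h k h1 (by push_cast; omega))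
    refine h1.trans (DAdj.reach ⟨(i + n + 1, j, false), ⟨?_, ?_⟩, Or.inl ⟨?_, ?_⟩⟩)
    · rw [dsrc_false]
      exact h _ (by omega) (by push_cast; omega)
    · rw [dtgt_mk]
      exact h _ (by omega) (by push_cast; omega)
    · rw [dsrc_false, add_sub_cancel_right]
    · rw [dtgt_mk]; push_cast; rw [add_assoc]

/-- A face above which there is nothing of `A` is joined to the top row. -/
theorem mem_CT_of_free {a b c d : ℤ} (hab : a < b) (hcd : c < d) {A : Set Vtx}
    (hA : Adm a b c d A) {f : Vtx} (hf1 : a ≤ f.1) (hf2 : f.1 < b) (hf3 : c - 1 ≤ f.2)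
    (hfree : ∀ k, f.2 ≤ k → (f.1, k) ∉ A) : f ∈ CT a b c d A := by
  obtain ⟨f1, f2⟩ := f
  simp only at hf1 hf2 hf3 hfree
  set P : Vtx → Prop := fun f => f ∈ St a b c ∧ f ∉ A with hP
  have htop : ∀ x y, a ≤ x → x < b → d ≤ y → P (x, y) := by
    intro x y h1 h2 h3
    refine ⟨⟨⟨h1, h2⟩, by simp only; omega⟩, fun h => ?_⟩
    have := (hA.sub _ h).2.2
    simp only at this
    omega
  have key : DReach {e | P (dsrc e) ∧ P (dtgt e)} (a, d) (f1, f2) := by
    obtain ⟨M, hM1, hM2⟩ : ∃ M : ℤ, d ≤ M ∧ f2 ≤ M := ⟨max d f2, le_max_left _ _, le_max_right _ _⟩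
    obtain ⟨n1, hn1⟩ : ∃ n : ℕ, M = d + n := ⟨(M - d).toNat, by omega⟩
    obtain ⟨n2, hn2⟩ : ∃ n : ℕ, f1 = a + n := ⟨(f1 - a).toNat, by omega⟩
    obtain ⟨n3, hn3⟩ : ∃ n : ℕ, M = f2 + n := ⟨(M - f2).toNat, by omega⟩
    have s1 := dreach_vert P a d n1 (fun k h1 _ => htop _ _ le_rfl hab h1)
    have s2 := dreach_hor P a M n2 (fun k h1 h2 => htop _ _ h1 (by omega) hM1)
    have s3 := dreach_vert P f1 f2 n3 (fun k h1 _ =>
      ⟨⟨⟨hf1, hf2⟩, by simp only; omega⟩, hfree k h1⟩)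
    rw [← hn1] at s1
    rw [← hn2] at s2
    rw [← hn3] at s3
    exact s1.trans (s2.trans s3.symm)
  exact key

/-- L8: a successful trial around a peak gives a good set of vertices connected to the frontier by
unexplored edges. -/
theorem trial_det {t α E : ℝ} {N : ℤ} {r : ℕ} (hr : 1 ≤ r) (hrN : 260 * (r : ℤ) ≤ 15 * N)
    {A : Set Vtx} (hA : Adm (-(32 * N)) (32 * N) 0 (256 * N) A) {w : Vtx} (hw : Peak N A w)
    {F : Finset Edg}
    (hT : Trw t α E w r (F ∪ EA (-(32 * N)) (32 * N) 0 (256 * N) A)) :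
    ∃ T : Finset Vtx, SG t α E r T ∧
      (∀ x ∈ T, |x.1 - w.1| ≤ 260 * r ∧ |x.2 - w.2| ≤ 260 * r) ∧
      ∃ v ∈ V0 (-(32 * N)) (32 * N) 0 (256 * N) A, ∀ x ∈ T,
        Reach (↑F \ ↑(EA (-(32 * N)) (32 * N) 0 (256 * N) A)) v x := by
  have hrz : (1 : ℤ) ≤ r := by exact_mod_cast hr
  set X := EA (-(32 * N)) (32 * N) 0 (256 * N) A with hX
  set H := F ∪ X with hH
  obtain ⟨hwA, hw1, hw2, hcone⟩ := hw
  obtain ⟨hw3, hw4⟩ := abs_lt.mp hw1
  unfold Trw Trl at hT
  set H1 := (trl (-w.1) (-w.2)).mp H with hH1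
  set H2 := (trl 0 (-(250 * (r : ℤ)))).mp H1 with hH2
  obtain ⟨hC, ⟨x0, x1, hx0, hx1, hV⟩, hC2, hSG⟩ := hT
  -- the big circuit
  obtain ⟨zc, hzc⟩ := circ_meet (by omega) (by omega) hC
  have hbox : (↑(TBE (-(2 * (r : ℤ))) (2 * r) (100 * r) (260 * r)) : Set Edg) ⊆
      ↑(RE (-(260 * (r : ℤ))) (260 * r) (-(260 * r)) (260 * r)) := by
    have : TBE (-(2 * (r : ℤ))) (2 * r) (100 * r) (260 * r) ⊆
      RE (-(260 * (r : ℤ))) (260 * r) (-(260 * r)) (260 * r) :=
      TBE_subset_RE.trans (RE_subset (by omega) (by omega) (by omega) (by omega))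
    exact_mod_cast this
  have hV' := hV.mono (Set.inter_subset_inter_right _ hbox)
  have m1 := hzc (x0, 100 * (r : ℤ)) (x1, 260 * (r : ℤ)) (by unfold inR; simp only; omega)
    (Or.inr (Or.inr (Or.inr rfl))) hV'
  -- the vertical crossing passes through the centre of the small box
  obtain ⟨y1, y2, hy1, hy2, hs1, hs2⟩ := sub_TB (a := -(2 * (r : ℤ))) (b := 2 * r)
    (c := 250 * r) (d := 254 * r) (by omega)
    (by rintro x y ⟨-, h⟩ _ _; simp only [Finset.mem_coe, mem_TBE_false] at h; omega)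
    (by rintro x y ⟨-, h⟩ _ _; simp only [Finset.mem_coe, mem_TBE_true] at h; omega) hV
    (by simp only; omega) (by simp only; omega)
  have hs2' : Reach (↑H1 ∩ ↑(RE (-(260 * (r : ℤ))) (260 * r) (-(260 * r)) (260 * r)))
      (x0, 100 * (r : ℤ)) (y1, 250 * (r : ℤ)) :=
    hs2.mono (Set.inter_subset_inter_right _ hbox)
  -- the origin is joined to the circuit
  obtain ⟨fA, hfA, hfw⟩ := hwA
  have m2 : Reach (↑H1 ∩ ↑(RE (-(260 * (r : ℤ))) (260 * r) (-(260 * r)) (260 * r))) (0, 0) zc := by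
    have k1 := corner_conn (by omega) (by omega) hA hfA hfw hw2.1
    have k2 := (trl (-w.1) (-w.2)).reach k1
    have k3 : Reach (↑H1 : Set Edg) (0, 0) (-(32 * N) - w.1, -w.2) := by
      have e1 : (trl (-w.1) (-w.2)).ψ w = (0, 0) := by
        change (w.1 + -w.1, w.2 + -w.2) = ((0, 0) : Vtx)
        rw [add_neg_cancel, add_neg_cancel]
      have e2 : (trl (-w.1) (-w.2)).ψ (-(32 * N), 0) = (-(32 * N) - w.1, -w.2) := by
        change (-(32 * N) + -w.1, 0 + -w.2) = ((-(32 * N) - w.1, -w.2) : Vtx)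
        rw [zero_add, sub_eq_add_neg]
      rw [e1, e2, ← LSym.coe_mp] at k2
      refine k2.mono ?_
      have : (trl (-w.1) (-w.2)).mp (EA (-(32 * N)) (32 * N) 0 (256 * N) A) ⊆ H1 :=
        LSym.mp_mono _ Finset.subset_union_right
      exact_mod_cast this
    obtain ⟨w', h1, h2, h3⟩ := first_exit (a := -(260 * (r : ℤ))) (b := 260 * r)
      (c := -(260 * r)) (d := 260 * r) (u := (0, 0)) (by unfold inR; simp only; omega) k3
      (Or.inl (by simp only; omega))
    exact hzc (0, 0) w' (by unfold inR; simp only; omega) h2 h3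
  -- connection of `w` to the centre
  have c1 : Reach (↑H1 ∩ ↑(RE (-(260 * (r : ℤ))) (260 * r) (-(260 * r)) (260 * r)))
      (y1, 250 * (r : ℤ)) (0, 0) := hs2'.symm.trans (m1.trans m2.symm)
  have c2 := reach_back c1
  have c3 : Reach (↑H ∩ {e : Edg | -(32 * N) < e.1 ∧ e.1 + 1 < 32 * N})
      (y1 + w.1, 250 * (r : ℤ) + w.2) w := by
    have e1 : (((0, 0) : Vtx).1 - -w.1, ((0, 0) : Vtx).2 - -w.2) = w := by
      simp
    rw [e1] at c2
    simp only [sub_neg_eq_add] at c2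
    refine c2.mono ?_
    rintro ⟨x, y, _ | _⟩ ⟨h1, h2⟩
    · refine ⟨h1, ?_⟩
      simp only [Finset.mem_coe, mem_RE_false] at h2
      simp only [Set.mem_ofPred_eq]
      omega
    · refine ⟨h1, ?_⟩
      simp only [Finset.mem_coe, mem_RE_true] at h2
      simp only [Set.mem_ofPred_eq]
      omega
  -- the small circuit
  obtain ⟨z2, hz1, hz2⟩ := glueT hr hC2
  have d1 : Reach (↑H1 ∩ ↑(RE (-(2 * (r : ℤ))) (2 * r) (250 * r) (254 * r)))
      (y1, 250 * (r : ℤ)) (y2, 254 * (r : ℤ)) := by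
    refine hs1.mono ?_
    rintro e ⟨⟨h1, -⟩, h2⟩
    exact ⟨h1, by
      have : TBE (-(2 * (r : ℤ))) (2 * r) (250 * r) (254 * r) ⊆
        RE (-(2 * (r : ℤ))) (2 * r) (250 * r) (254 * r) := TBE_subset_RE
      exact this h2⟩
  have d2 := reach_fwd (s := 0) (t := -(250 * (r : ℤ))) d1
  have d3 : Reach (↑H2 ∩ ↑(boxE (6 * r))) (y1, 0) (y2, 4 * (r : ℤ)) := by
    have e1 : (((y1, 250 * (r : ℤ)) : Vtx).1 + 0, ((y1, 250 * (r : ℤ)) : Vtx).2 + -(250 * (r : ℤ)))
        = ((y1, 0) : Vtx) := by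
      simp
    have e2 : (((y2, 254 * (r : ℤ)) : Vtx).1 + 0, ((y2, 254 * (r : ℤ)) : Vtx).2 + -(250 * (r : ℤ)))
        = ((y2, 4 * (r : ℤ)) : Vtx) := by
      refine Prod.ext ?_ ?_
      · simp
      · simp only; ring
    rw [e1, e2] at d2
    refine d2.mono ?_
    rintro e ⟨h1, h2⟩
    refine ⟨h1, ?_⟩
    have : RE (-(2 * (r : ℤ)) + 0) (2 * r + 0) (250 * r + -(250 * r)) (254 * r + -(250 * r)) ⊆
        boxE (6 * r) := by
      unfold boxE
      exact RE_subset (by push_cast; omega) (by push_cast; omega) (by push_cast; omega)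
        (by push_cast; omega)
    exact this h2
  have d4 := hz2 (y1, 0) (y2, 4 * (r : ℤ)) (by unfold inR; simp only; omega)
    (Or.inr (Or.inr (Or.inr le_rfl))) d3
  -- faces near the small box are free
  have hfree : ∀ v : Vtx, |v.1 - w.1| ≤ 6 * r → 244 * (r : ℤ) ≤ v.2 - w.2 → ∀ f, Cor v f →
      f ∉ A := by
    intro v h1 h2 f hf
    refine hcone v (by omega) (by omega) f hf
  have d5 : ∀ x ∈ FT r H2, Reach (↑F \ ↑X) (x.1 + w.1, x.2 + 250 * (r : ℤ) + w.2)
      (y1 + w.1, 250 * (r : ℤ) + w.2) := by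
    intro x hx
    have k1 := (hz1 x hx).trans d4.symm
    unfold boxE at k1
    have k2 := reach_back (reach_back k1)
    have e1 : (((y1, 0) : Vtx).1 - 0 - -w.1, ((y1, 0) : Vtx).2 - -(250 * (r : ℤ)) - -w.2)
        = ((y1 + w.1, 250 * (r : ℤ) + w.2) : Vtx) := by
      refine Prod.ext ?_ ?_
      · simp
      · simp
    have e2 : (x.1 - 0 - -w.1, x.2 - -(250 * (r : ℤ)) - -w.2)
        = ((x.1 + w.1, x.2 + 250 * (r : ℤ) + w.2) : Vtx) := by
      refine Prod.ext ?_ ?_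
      · simp
      · simp
    simp only at k2
    rw [e1, e2] at k2
    refine k2.mono ?_
    rintro ⟨x', y', bo⟩ ⟨h1, h2⟩
    have hin : |x' - w.1| ≤ 6 * r ∧ 244 * (r : ℤ) ≤ y' - w.2 := by
      cases bo
      · simp only [Finset.mem_coe, mem_RE_false] at h2
        push_cast at h2
        rw [abs_le]
        omega
      · simp only [Finset.mem_coe, mem_RE_true] at h2
        push_cast at h2
        rw [abs_le]
        omega
    have hnX : ((x', y', bo) : Edg) ∉ X := by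
      intro h
      rw [hX, mem_EA] at h
      have k3 := hfree (x', y') hin.1 hin.2
      rcases h.2 with h | h
      · refine k3 _ ?_ h
        cases bo
        · rw [dsrc_false]; exact ⟨Or.inr rfl, Or.inl rfl⟩
        · rw [dsrc_true]; exact ⟨Or.inl rfl, Or.inr rfl⟩
      · exact k3 _ ⟨Or.inl rfl, Or.inl rfl⟩ h
    refine ⟨?_, hnX⟩
    have h3 : ((x', y', bo) : Edg) ∈ F ∪ X := h1
    rcases Finset.mem_union.mp h3 with h4 | h4
    · exact h4
    · exact absurd h4 hnX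
  -- the frontier
  obtain ⟨v, hv, hvr⟩ := stop (by omega) (by omega) hA c3 (by simp only; omega) (by
    intro f hf
    have hfn : ∀ k, f.2 ≤ k → (f.1, k) ∉ A := by
      intro k hk
      refine hfree (y1 + w.1, k) ?_ ?_ _ ?_
      · simp only [add_sub_cancel_right]
        rw [abs_le]; omega
      · have := hf.2
        simp only at this ⊢
        omega
      · exact ⟨hf.1, Or.inl rfl⟩
    have h1 := hf.1
    have h2 := hf.2
    simp only at h1 h2
    exact ⟨hfn f.2 le_rfl, mem_CT_of_free (by omega) (by omega) hA (by omega) (by omega)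
      (by omega) hfn⟩) ⟨fA, hfA, hfw⟩
  refine ⟨(FT r H2).map (trl w.1 (250 * (r : ℤ) + w.2)).ψ.toEmbedding, ?_, ?_, v, hv, ?_⟩
  · obtain ⟨h1, h2⟩ := hSG
    constructor
    · rw [Finset.card_map]; exact h1
    · refine le_trans (le_of_eq ?_) h2
      unfold eng
      rw [Finset.sum_map]
      apply Finset.sum_congr rfl
      intro x _
      rw [Finset.sum_map]
      apply Finset.sum_congr rfl
      intro y _
      unfold kn
      have : ((trl w.1 (250 * (r : ℤ) + w.2)).ψ.toEmbedding x -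
          (trl w.1 (250 * (r : ℤ) + w.2)).ψ.toEmbedding y) = x - y := by
        change ((x.1 + w.1, x.2 + (250 * (r : ℤ) + w.2)) : Vtx) -
          (y.1 + w.1, y.2 + (250 * (r : ℤ) + w.2)) = x - y
        refine Prod.ext ?_ ?_
        · simp
        · simp
      rw [this]
  · intro x hx
    rw [Finset.mem_map] at hx
    obtain ⟨y, hy, rfl⟩ := hx
    have h1 := (mem_FT.mp hy).1
    rw [w_mem_bx] at h1
    change |y.1 + w.1 - w.1| ≤ 260 * (r : ℤ) ∧ |y.2 + (250 * (r : ℤ) + w.2) - w.2| ≤ 260 * (r : ℤ)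
    rw [abs_le, abs_le]
    omega
  · intro x hx
    rw [Finset.mem_map] at hx
    obtain ⟨y, hy, rfl⟩ := hx
    have h1 := d5 y hy
    have e1 : (trl w.1 (250 * (r : ℤ) + w.2)).ψ.toEmbedding y =
        (y.1 + w.1, y.2 + 250 * (r : ℤ) + w.2) := by
      change ((y.1 + w.1, y.2 + (250 * (r : ℤ) + w.2)) : Vtx) = _
      rw [add_assoc]
    rw [e1]
    exact (h1.trans hvr).symm

end Pool.Agent.H389R2.LV
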