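import Pool.Agent.H389R2.LV.Level
import Pool.Agent.H389R2.LV.Decay
import Pool.Agent.H389R2.LV.Front
import Pool.Agent.H389R2.LV.Meet
import Pool.Agent.H389R2.LV.TrialDet

set_option autoImplicit false
set_option maxHeartbeats 1000000

namespace Pool.Agent.H389R2.LV

open H974 Pool.Agent.H160R2.CV Pool.Agent.H389R2.CD

/-- the component of the top row does not meet `A` -/
theorem CT_notMem {a b c d : ℤ} {A : Set Vtx} (hA : Adm a b c d A) {f : Vtx}
    (hf : f ∈ CT a b c d A) : f ∉ A := by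
  have hf' : DReach {e | (dsrc e ∈ St a b c ∧ dsrc e ∉ A) ∧ (dtgt e ∈ St a b c ∧ dtgt e ∉ A)}
    (a, d) f := hf
  rcases Relation.ReflTransGen.cases_tail hf' with h | ⟨g, _, hg⟩
  · intro hfA
    have := (hA.sub f hfA).2.2
    rw [h] at this
    simp only at this
    omega
  · obtain ⟨e, he, h⟩ := hg
    obtain ⟨h1, h2⟩ := he
    rcases h with ⟨_, h⟩ | ⟨h, _⟩
    · rw [← h]; exact h2.2
    · rw [← h]; exact h1.2

/-- frontier edges are open -/
theorem G0_sub {a b c d : ℤ} {F : Finset Edg} {k : ℕ} (hA : Adm a b c d (DS a b c d F k)) :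
    G0 a b c d (DS a b c d F k) ⊆ (↑F : Set Edg) := by
  intro e he
  obtain ⟨h1, h2⟩ := he
  refine DS_bdry (k := k) h1 ?_
  intro h3
  rcases h2 with ⟨h4, h5⟩ | ⟨h4, h5⟩
  · exact CT_notMem hA h5 (h3.mp h4)
  · exact CT_notMem hA h4 (h3.mpr h5)

/-- the deterministic part -/
theorem cross_det {t α E : ℝ} {N : ℤ} (hN : 1 ≤ N) {J K : ℕ} {r : ℕ → ℕ}
    (hr1 : ∀ j < J, 1 ≤ r j) (hrN : ∀ j < J, 260 * (r j : ℤ) ≤ 15 * N) {η : ℝ}
    (hη : ∀ j < J, η * N ≤ r j) {F : Finset Edg}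
    (hbad : ¬ ∀ y y' : ℤ, (0 ≤ y ∧ y ≤ 256 * N) → (0 ≤ y' ∧ y' ≤ 256 * N) →
        Reach (↑F ∩ ↑(LRE (-(32 * N)) (32 * N) 0 (256 * N))) (-(32 * N), y) (32 * N, y') →
        ∃ (r : ℕ) (T : Finset Vtx), 1 ≤ r ∧ η * N ≤ r ∧ SG t α E r T ∧
          (∀ x ∈ T, |x.1| ≤ 32 * N ∧ -(16 * N) ≤ x.2 ∧ x.2 ≤ 272 * N) ∧
          ∀ x ∈ T, Reach (↑F : Set Edg) (-(32 * N), y) x) :
    (∃ k ∈ Finset.range K, ∀ A, DS (-(32 * N)) (32 * N) 0 (256 * N) F k = A →
        ¬ Top (-(32 * N)) (32 * N) (256 * N) A ∧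
        ∀ w, Peak N A w → ∀ j < J, ¬ Trw t α E w (r j)
          (F ∪ EA (-(32 * N)) (32 * N) 0 (256 * N) A)) ∨
      ¬ Top (-(32 * N)) (32 * N) (256 * N) (DS (-(32 * N)) (32 * N) 0 (256 * N) F K) := by
  classical
  push Not at hbad
  obtain ⟨y, y', hy, hy', hR, hno⟩ := hbad
  have hab : -(32 * N) < 32 * N := by omega
  have hcd : (0 : ℤ) < 256 * N := by omega
  by_cases hex : ∃ k, k < K ∧ ∃ z, Reach (↑F ∩ ↑(LRE (-(32 * N)) (32 * N) 0 (256 * N)))
      (-(32 * N), y) z ∧ z ∈ PS (-(32 * N)) (32 * N) 0 (256 * N) F k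
  · left
    have hmin := Nat.find_spec hex
    have hfst : ∀ j < Nat.find hex, ∀ z,
        Reach (↑F ∩ ↑(LRE (-(32 * N)) (32 * N) 0 (256 * N))) (-(32 * N), y) z →
        z ∉ PS (-(32 * N)) (32 * N) 0 (256 * N) F j := by
      intro j hj z hz hz2
      exact Nat.find_min hex hj ⟨hj.trans hmin.1, z, hz, hz2⟩
    set k := Nat.find hex with hk
    clear_value k
    refine ⟨k, Finset.mem_range.mpr hmin.1, ?_⟩
    rintro A rfl
    have hT := not_top hab hcd hy hy' hR hfst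
    refine ⟨hT, ?_⟩
    have hA := DS_adm hab hcd hT
    obtain ⟨z, hz1, hz2⟩ := meets_front hab hcd hy hy' hR hfst hmin.2
    intro w hw j hj hTr
    obtain ⟨T, hSG, hTb, v, hv, hvT⟩ := trial_det (hr1 j hj) (hrN j hj) hA hw hTr
    obtain ⟨x, hx, hxn⟩ := hno (r j) T (hr1 j hj) (hη j hj) hSG (by
      intro x hx
      obtain ⟨h1, h2⟩ := hTb x hx
      obtain ⟨_, h3, h4, _⟩ := hw
      have h5 := hrN j hj
      rw [abs_le] at h1 h2
      rw [abs_lt] at h3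
      refine ⟨abs_le.mpr ⟨by omega, by omega⟩, by omega, by omega⟩)
    apply hxn
    have e1 : Reach (↑F : Set Edg) (-(32 * N), y) z := hz1.mono Set.inter_subset_left
    have e2 : Reach (↑F : Set Edg) z v := (front_conn hab hcd hA hz2 hv).mono (G0_sub hA)
    have e3 : Reach (↑F : Set Edg) v x := (hvT x hx).mono Set.diff_subset
    exact (e1.trans e2).trans e3
  · right
    push Not at hex
    exact not_top hab hcd hy hy' hR (fun j hj z hz => hex j hj z hz)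

theorem pr_exists_range (S : Finset Edg) (K : ℕ) (A : ℕ → Finset Edg → Prop) :
    Pr P S (fun F => ∃ j ∈ Finset.range K, A j F) ≤ ∑ j ∈ Finset.range K, Pr P S (A j) := by
  induction K with
  | zero =>
    have : Pr P S (fun F => ∃ j ∈ Finset.range 0, A j F) = 0 := by
      unfold Pr
      rw [Ex_congr (g := fun _ => 0) (fun F _ => ind_not_of (by simp)), Ex_const]
    rw [this]; simp
  | succ K ih =>
    rw [Finset.sum_range_succ]
    refine le_trans ?_ (add_le_add ih le_rfl)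
    refine le_trans (Pr_mono w_ok ?_) (Pr_or_le w_ok S _ _)
    rintro F _ ⟨j, hj, hA⟩
    rw [Finset.mem_range] at hj
    rcases Nat.lt_succ_iff_lt_or_eq.mp hj with h | h
    · left; exact ⟨j, Finset.mem_range.mpr h, hA⟩
    · right; rw [← h]; exact hA

/-- L13: with high probability, every cluster which crosses the rectangle
`[-32 N, 32 N] × [0, 256 N]` from left to right contains a good set of vertices at a scale
comparable to `N`. -/
theorem cross_good (hAr : ArS) {t : ℝ} (ht1 : 1 ≤ t) (ht : t < 91 / 48) :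
    ∃ α E : ℝ, 0 < α ∧ 0 < E ∧ ∀ ε : ℝ, 0 < ε → ∃ η : ℝ, 0 < η ∧ ∃ N0 : ℤ, 1 ≤ N0 ∧
      ∀ N : ℤ, N0 ≤ N → ∀ S : Finset Edg, Big N ⊆ S →
      Pr P S (fun F => ¬ ∀ y y' : ℤ, (0 ≤ y ∧ y ≤ 256 * N) → (0 ≤ y' ∧ y' ≤ 256 * N) →
        Reach (↑F ∩ ↑(LRE (-(32 * N)) (32 * N) 0 (256 * N))) (-(32 * N), y) (32 * N, y') →
        ∃ (r : ℕ) (T : Finset Vtx), 1 ≤ r ∧ η * N ≤ r ∧ SG t α E r T ∧
          (∀ x ∈ T, |x.1| ≤ 32 * N ∧ -(16 * N) ≤ x.2 ∧ x.2 ≤ 272 * N) ∧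
          ∀ x ∈ T, Reach (↑F : Set Edg) (-(32 * N), y) x) ≤ ε := by
  obtain ⟨p, α, E, hp0, hα, hE, hp⟩ := trial_prob hAr ht1 ht
  obtain ⟨q, hq0, hq1, hq⟩ := level_decay
  refine ⟨α, E, hα, hE, ?_⟩
  intro ε hε
  have hp1 : p ≤ 1 := by
    refine (hp 1 le_rfl (0, 0) (ANw (0, 0) 1) ∅ (Finset.Subset.refl _) (by simp)).trans ?_
    exact Pr_le_one w_ok _ _
  obtain ⟨K, hK⟩ := exists_pow_lt_of_lt_one (half_pos hε) hq1
  obtain ⟨J, hJ⟩ := exists_pow_lt_of_lt_one (show (0 : ℝ) < ε / 2 / (K + 1) by positivity)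
    (show 1 - p < 1 by linarith)
  have hK1 : (K : ℝ) * (1 - p) ^ J ≤ ε / 2 := by
    have h1 : (K : ℝ) * (1 - p) ^ J ≤ K * (ε / 2 / (K + 1)) :=
      mul_le_mul_of_nonneg_left hJ.le (Nat.cast_nonneg K)
    refine h1.trans ?_
    rw [← mul_div_assoc, div_le_iff₀ (by positivity)]
    nlinarith
  have h3 : (0 : ℤ) < 3 ^ J := by positivity
  refine ⟨1 / (40 * 3 ^ J), by positivity, 200 * 3 ^ J, by omega, ?_⟩
  intro N hN S hS
  have hN1 : 1 ≤ N := by omega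
  obtain ⟨M, hM⟩ : ∃ M : ℤ, M = N / (20 * 3 ^ J) := ⟨_, rfl⟩
  have hM1 : 20 * 3 ^ J * M ≤ N := by
    rw [hM]; exact Int.mul_ediv_self_le (by positivity)
  have hM2 : N < 20 * 3 ^ J * M + 20 * 3 ^ J := by
    rw [hM]; exact Int.lt_mul_ediv_self_add (by positivity)
  have hM3 : 1 ≤ M := by nlinarith
  obtain ⟨m, hm⟩ := Int.eq_ofNat_of_zero_le (show 0 ≤ M by omega)
  have hm1 : 1 ≤ m := by
    have : (1 : ℤ) ≤ (m : ℤ) := by rw [← hm]; exact hM3
    exact_mod_cast this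
  set r : ℕ → ℕ := fun j => 3 ^ (J - j) * m with hr
  have hr1 : ∀ j < J, 1 ≤ r j := by
    intro j _
    exact Nat.one_le_iff_ne_zero.mpr (Nat.mul_ne_zero (by positivity) (by omega))
  have hrle : ∀ j < J, ((r j : ℕ) : ℤ) ≤ 3 ^ J * M := by
    intro j _
    rw [hm, hr]
    push_cast
    refine mul_le_mul_of_nonneg_right ?_ (by positivity)
    exact pow_le_pow_right₀ (by norm_num) (Nat.sub_le _ _)
  have hrN : ∀ j < J, 260 * (r j : ℤ) ≤ 15 * N := by
    intro j hj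
    have h4 := hrle j hj
    have h5 : 20 * (3 ^ J * M) ≤ N := by linarith
    have h6 : (0 : ℤ) ≤ 3 ^ J * M := by positivity
    linarith
  have hrr : ∀ i j, i < j → j < J → 260 * r j < 100 * r i := by
    intro i j hij hj
    have h4 : J - i = (J - j) + (j - i - 1) + 1 := by omega
    have h5 : 3 * 3 ^ (J - j) ≤ 3 ^ (J - i) := by
      rw [h4, pow_succ, pow_add]
      have : 1 ≤ 3 ^ (j - i - 1) := Nat.one_le_pow _ _ (by norm_num)
      nlinarith [Nat.one_le_pow (J - j) 3 (by norm_num)]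
    have h6 : 3 * r j ≤ r i := by
      rw [hr]
      calc 3 * (3 ^ (J - j) * m) = (3 * 3 ^ (J - j)) * m := by ring
        _ ≤ _ := Nat.mul_le_mul_right _ h5
    have h7 := hr1 j hj
    omega
  have hη : ∀ j < J, 1 / (40 * 3 ^ J) * (N : ℝ) ≤ (r j : ℝ) := by
    intro j _
    have h4 : (m : ℝ) ≤ (r j : ℝ) := by
      have : m ≤ r j := by
        rw [hr]
        exact Nat.le_mul_of_pos_left _ (by positivity)
      exact_mod_cast this
    refine le_trans ?_ h4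
    rw [one_div, inv_mul_le_iff₀ (by positivity)]
    have h5 : N ≤ 40 * 3 ^ J * M := by nlinarith
    rw [hm] at h5
    have h6 : (N : ℝ) ≤ ((40 * 3 ^ J * (m : ℤ) : ℤ) : ℝ) := by exact_mod_cast h5
    push_cast at h6
    exact h6
  refine le_trans (Pr_mono w_ok (fun F _ hF => cross_det (J := J) (K := K) hN1 hr1 hrN hη hF)) ?_
  refine (Pr_or_le w_ok S _ _).trans ?_
  have hLK : Pr P S (fun F => ¬ Top (-(32 * N)) (32 * N) (256 * N)
      (DS (-(32 * N)) (32 * N) 0 (256 * N) F K)) ≤ ε / 2 := (hq N hN1 S hS K).trans hK.le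
  refine le_trans (add_le_add (pr_exists_range S K _) hLK) ?_
  have hsum : ∑ k ∈ Finset.range K, Pr P S (fun F => ∀ A,
      DS (-(32 * N)) (32 * N) 0 (256 * N) F k = A →
        ¬ Top (-(32 * N)) (32 * N) (256 * N) A ∧
        ∀ w, Peak N A w → ∀ j < J, ¬ Trw t α E w (r j)
          (F ∪ EA (-(32 * N)) (32 * N) 0 (256 * N) A)) ≤
      ∑ k ∈ Finset.range K, (1 - p) ^ J :=
    Finset.sum_le_sum (fun k _ => level_prob hN1 hr1 hrN hrr hp hS k)
  rw [Finset.sum_const, Finset.card_range, nsmul_eq_mul] at hsum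
  linarith

end Pool.Agent.H389R2.LV
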