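import Pool.Agent.H389R2.LV.Defs

set_option autoImplicit false
set_option maxHeartbeats 1000000

namespace Pool.Agent.H389R2.LV

open H974 Pool.Agent.H160R2.CV Pool.Agent.H389R2.CD

/-! Task L2 (helper218): elementary properties of the levels. -/

/-- the faces of an edge of the rectangle -/
theorem LRE_faces {a b c d : ℤ} {e : Edg} (he : e ∈ LRE a b c d) :
    dsrc e ∈ Phi a b c d ∧ dtgt e ∈ Phi a b c d := by
  obtain ⟨x, y, s⟩ := e
  cases s with
  | true =>
    rw [mem_LRE_true] at he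
    simp only [Phi, dsrc_true, dtgt_mk, Set.mem_ofPred_eq]
    omega
  | false =>
    rw [mem_LRE_false] at he
    simp only [Phi, dsrc_false, dtgt_mk, Set.mem_ofPred_eq]
    omega

theorem DReach_Phi {a b c d : ℤ} {F : Finset Edg} {f g : Vtx} (hf : f ∈ Phi a b c d)
    (h : DReach (↑(LRE a b c d) \ ↑F) f g) : g ∈ Phi a b c d := by
  induction h with
  | refl => exact hf
  | tail _ hs _ =>
    obtain ⟨e, he, h | h⟩ := hs
    · rw [← h.2]; exact (LRE_faces (Finset.mem_coe.1 he.1)).2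
    · rw [← h.1]; exact (LRE_faces (Finset.mem_coe.1 he.1)).1

theorem DS_sub {a b c d : ℤ} (hcd : c < d) (F : Finset Edg) (k : ℕ) :
    DS a b c d F k ⊆ Phi a b c d := by
  cases k with
  | zero =>
    rintro f ⟨x, hx, h⟩
    refine DReach_Phi ?_ h
    simp only [Phi, Set.mem_ofPred_eq]
    omega
  | succ k =>
    rintro f ⟨v, _, g, hg, _, h⟩
    exact DReach_Phi hg h

theorem DS_bot {a b c d : ℤ} (hcd : c < d) (F : Finset Edg) (k : ℕ) {x : ℤ} (h1 : a ≤ x) (h2 : x < b) :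
    ((x, c - 1) : Vtx) ∈ DS a b c d F k := by
  induction k with
  | zero => exact ⟨x, ⟨h1, h2⟩, DReach.refl _ _⟩
  | succ k ih =>
    refine ⟨(x, c), ⟨(x, c - 1), ih, (x, c), ?_, ?_, ?_, Reach.refl _ _⟩, (x, c - 1), ?_, ?_,
      DReach.refl _ _⟩
    · exact ⟨Or.inl rfl, Or.inr rfl⟩
    · exact ⟨h1, h2.le⟩
    · exact ⟨le_refl _, hcd.le⟩
    · simp only [Phi, Set.mem_ofPred_eq]
      omega
    · exact ⟨Or.inl rfl, Or.inr rfl⟩

/-- every face has a corner in the rectangle -/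
theorem exists_corner {a b c d : ℤ} (hcd : c < d) {f : Vtx} (hf : f ∈ Phi a b c d) :
    ∃ u : Vtx, Cor u f ∧ (a ≤ u.1 ∧ u.1 ≤ b) ∧ (c ≤ u.2 ∧ u.2 ≤ d) := by
  obtain ⟨x, y⟩ := f
  simp only [Phi, Set.mem_ofPred_eq] at hf
  by_cases h : y = c - 1
  · refine ⟨(x, c), ⟨Or.inl rfl, Or.inr h⟩, ⟨?_, ?_⟩, ?_, ?_⟩ <;> simp only <;> omega
  · refine ⟨(x, y), ⟨Or.inl rfl, Or.inl rfl⟩, ⟨?_, ?_⟩, ?_, ?_⟩ <;> simp only <;> omega

theorem DS_mono {a b c d : ℤ} (hcd : c < d) (F : Finset Edg) (k : ℕ) :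
    DS a b c d F k ⊆ DS a b c d F (k + 1) := by
  intro f hf
  have hP := DS_sub hcd F k hf
  obtain ⟨u, hu, h1, h2⟩ := exists_corner hcd hP
  exact ⟨u, ⟨f, hf, u, hu, h1, h2, Reach.refl _ _⟩, f, hP, hu, DReach.refl _ _⟩

theorem DS_mono_le {a b c d : ℤ} (hcd : c < d) (F : Finset Edg) {j k : ℕ} (h : j ≤ k) :
    DS a b c d F j ⊆ DS a b c d F k := by
  induction h with
  | refl => exact subset_rfl
  | step _ ih => exact ih.trans (DS_mono hcd F _)

/-- the levels are closed under closed dual steps -/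
theorem DS_closed {a b c d : ℤ} {F : Finset Edg} {k : ℕ} {f g : Vtx} (hf : f ∈ DS a b c d F k)
    (h : DReach (↑(LRE a b c d) \ ↑F) f g) : g ∈ DS a b c d F k := by
  cases k with
  | zero =>
    obtain ⟨x, hx, h'⟩ := hf
    exact ⟨x, hx, h'.trans h⟩
  | succ k =>
    obtain ⟨v, hv, g', hg', hc, h'⟩ := hf
    exact ⟨v, hv, g', hg', hc, h'.trans h⟩

/-- edges on the boundary of the explored region are open -/
theorem DS_bdry {a b c d : ℤ} {F : Finset Edg} {k : ℕ} {e : Edg} (he : e ∈ LRE a b c d)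
    (h : ¬ (dsrc e ∈ DS a b c d F k ↔ dtgt e ∈ DS a b c d F k)) : e ∈ F := by
  by_contra hF
  have hmem : e ∈ ((↑(LRE a b c d) : Set Edg) \ ↑F) :=
    ⟨Finset.mem_coe.2 he, fun h' => hF (Finset.mem_coe.1 h')⟩
  have hstep : DAdj (↑(LRE a b c d) \ ↑F) (dsrc e) (dtgt e) := ⟨e, hmem, Or.inl ⟨rfl, rfl⟩⟩
  exact h ⟨fun h1 => DS_closed h1 hstep.reach, fun h1 => DS_closed h1 hstep.symm.reach⟩

/-- the edges with both faces in `A` -/
abbrev InA (A : Set Vtx) : Set Edg := {e | dsrc e ∈ A ∧ dtgt e ∈ A}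

theorem closed_InA {a b c d : ℤ} (hcd : c < d) {F : Finset Edg} {j k : ℕ} (hjk : j ≤ k) {f g : Vtx}
    (hf : f ∈ DS a b c d F j) (h : DReach (↑(LRE a b c d) \ ↑F) f g) :
    DReach (InA (DS a b c d F k)) f g := by
  induction h with
  | refl => exact DReach.refl _ _
  | @tail g' g'' h' hs ih =>
    refine ih.trans (DAdj.reach ?_)
    have h1 : g' ∈ DS a b c d F k := DS_mono_le hcd F hjk (DS_closed hf h')
    have h2 : g'' ∈ DS a b c d F k :=
      DS_mono_le hcd F hjk (DS_closed hf (h'.trans (DAdj.reach hs)))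
    obtain ⟨e, _, h | h⟩ := hs
    · exact ⟨e, ⟨by rw [h.1]; exact h1, by rw [h.2]; exact h2⟩, Or.inl h⟩
    · exact ⟨e, ⟨by rw [h.1]; exact h2, by rw [h.2]; exact h1⟩, Or.inr h⟩

theorem hstep_InA {A : Set Vtx} {x y : ℤ} (h1 : ((x - 1, y) : Vtx) ∈ A) (h2 : ((x, y) : Vtx) ∈ A) :
    DReach (InA A) (x - 1, y) (x, y) :=
  DAdj.reach ⟨(x, y, false), ⟨h1, h2⟩, Or.inl ⟨rfl, rfl⟩⟩

theorem vstep_InA {A : Set Vtx} {x y : ℤ} (h1 : ((x, y - 1) : Vtx) ∈ A) (h2 : ((x, y) : Vtx) ∈ A) :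
    DReach (InA A) (x, y - 1) (x, y) :=
  DAdj.reach ⟨(x, y, true), ⟨h1, h2⟩, Or.inl ⟨rfl, rfl⟩⟩

/-- the faces around a vertex are joined inside `A` -/
theorem around {a b c d : ℤ} {A : Set Vtx} {v f g : Vtx}
    (hA : ∀ h ∈ Phi a b c d, Cor v h → h ∈ A) (hf : f ∈ Phi a b c d) (hvf : Cor v f)
    (hg : g ∈ Phi a b c d) (hvg : Cor v g) : DReach (InA A) f g := by
  obtain ⟨x, y⟩ := v
  obtain ⟨f1, f2⟩ := f
  obtain ⟨g1, g2⟩ := g
  -- the intermediate face
  have hm : ((g1, f2) : Vtx) ∈ Phi a b c d := by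
    simp only [Phi, Set.mem_ofPred_eq] at hf hg ⊢
    exact ⟨hg.1, hf.2⟩
  have hcm : Cor (x, y) (g1, f2) := ⟨hvg.1, hvf.2⟩
  have hfA := hA _ hf hvf
  have hgA := hA _ hg hvg
  have hmA := hA _ hm hcm
  have s1 : DReach (InA A) (f1, f2) (g1, f2) := by
    have h1 := hvf.1
    have h2 := hvg.1
    simp only at h1 h2
    rcases h1 with h1 | h1 <;> rcases h2 with h2 | h2
    · rw [h1, h2]; exact DReach.refl _ _
    · subst h1; subst h2
      exact (hstep_InA hmA hfA).symm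
    · subst h1; subst h2
      exact hstep_InA hfA hmA
    · rw [h1, h2]; exact DReach.refl _ _
  have s2 : DReach (InA A) (g1, f2) (g1, g2) := by
    have h1 := hvf.2
    have h2 := hvg.2
    simp only at h1 h2
    rcases h1 with h1 | h1 <;> rcases h2 with h2 | h2
    · rw [h1, h2]; exact DReach.refl _ _
    · subst h1; subst h2
      exact (vstep_InA hgA hmA).symm
    · subst h1; subst h2
      exact vstep_InA hmA hgA
    · rw [h1, h2]; exact DReach.refl _ _
  exact s1.trans s2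

/-- the bottom row is connected -/
theorem bot_conn {a b c d : ℤ} (hcd : c < d) {F : Finset Edg} {k : ℕ} (x : ℤ)
    (h1 : a ≤ x) : x < b → DReach (InA (DS a b c d F k)) (a, c - 1) (x, c - 1) := by
  induction x, h1 using Int.le_induction with
  | base => intro _; exact DReach.refl _ _
  | succ x hx ih =>
    intro hb
    have e1 : ((x + 1 - 1, c - 1) : Vtx) = (x, c - 1) := by rw [add_sub_cancel_right]
    have h2 : ((x + 1 - 1, c - 1) : Vtx) ∈ DS a b c d F k := by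
      rw [e1]; exact DS_bot hcd F k hx (by omega)
    have h3 : ((x + 1, c - 1) : Vtx) ∈ DS a b c d F k := DS_bot hcd F k (by omega) hb
    have h4 := hstep_InA h2 h3
    rw [e1] at h4
    exact (ih (by omega)).trans h4

/-- the two end points of an edge of the rectangle lie in the rectangle and touch `dtgt e` -/
theorem LRE_ends {a b c d : ℤ} {e : Edg} (he : e ∈ LRE a b c d) :
    (((a ≤ (src e).1 ∧ (src e).1 ≤ b) ∧ (c ≤ (src e).2 ∧ (src e).2 ≤ d)) ∧ Cor (src e) (dtgt e)) ∧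
    (((a ≤ (tgt e).1 ∧ (tgt e).1 ≤ b) ∧ (c ≤ (tgt e).2 ∧ (tgt e).2 ≤ d)) ∧ Cor (tgt e) (dtgt e)) := by
  obtain ⟨x, y, s⟩ := e
  cases s with
  | true =>
    rw [mem_LRE_true] at he
    simp only [src_mk, tgt_true, dtgt_mk, Cor]
    refine ⟨⟨⟨⟨?_, ?_⟩, ?_, ?_⟩, ?_, ?_⟩, ⟨⟨?_, ?_⟩, ?_, ?_⟩, ?_, ?_⟩ <;>
      first | exact Or.inl trivial | omega
  | false =>
    rw [mem_LRE_false] at he
    simp only [src_mk, tgt_false, dtgt_mk, Cor]
    refine ⟨⟨⟨⟨?_, ?_⟩, ?_, ?_⟩, ?_, ?_⟩, ⟨⟨?_, ?_⟩, ?_, ?_⟩, ?_, ?_⟩ <;>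
      first | exact Or.inl trivial | omega

theorem level_conn {a b c d : ℤ} (hcd : c < d) {F : Finset Edg} {k : ℕ} (j : ℕ) :
    j ≤ k → ∀ f ∈ DS a b c d F j, DReach (InA (DS a b c d F k)) (a, c - 1) f := by
  induction j with
  | zero =>
    rintro hjk f ⟨x, hx, h⟩
    have h0 : ((x, c - 1) : Vtx) ∈ DS a b c d F 0 := DS_bot hcd F 0 hx.1 hx.2
    exact (bot_conn hcd x hx.1 hx.2).trans (closed_InA hcd hjk h0 h)
  | succ j ih =>
    rintro hjk f ⟨v, hv, g, hg, hvg, h⟩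
    have hgD : g ∈ DS a b c d F (j + 1) := ⟨v, hv, g, hg, hvg, DReach.refl _ _⟩
    refine DReach.trans ?_ (closed_InA hcd hjk hgD h)
    obtain ⟨f0, hf0, u, huf, hu1, hu2, hr⟩ := hv
    -- faces around a vertex of `PS j` are explored
    have hA : ∀ w, Reach (↑F ∩ ↑(LRE a b c d)) u w → ∀ h ∈ Phi a b c d, Cor w h →
        h ∈ DS a b c d F k := by
      intro w hw h hh hwh
      exact DS_mono_le hcd F hjk
        ⟨w, ⟨f0, hf0, u, huf, hu1, hu2, hw⟩, h, hh, hwh, DReach.refl _ _⟩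
    have key : ∀ w, Reach (↑F ∩ ↑(LRE a b c d)) u w → ∀ h ∈ Phi a b c d, Cor w h →
        DReach (InA (DS a b c d F k)) (a, c - 1) h := by
      intro w hw
      induction hw with
      | refl =>
        intro h hh huh
        exact (ih (by omega) f0 hf0).trans
          (around (hA u (Reach.refl _ _)) (DS_sub hcd F j hf0) huf hh huh)
      | @tail w w' hw hs ihw =>
        intro h hh hwh
        have hs' := hs
        obtain ⟨e, he, hse⟩ := hs
        have heL : e ∈ LRE a b c d := Finset.mem_coe.1 he.2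
        obtain ⟨⟨_, c1⟩, ⟨_, c2⟩⟩ := LRE_ends heL
        have hP := (LRE_faces heL).2
        have c3 : Cor w (dtgt e) ∧ Cor w' (dtgt e) := by
          rcases hse with h | h
          · rw [← h.1, ← h.2]; exact ⟨c1, c2⟩
          · rw [← h.1, ← h.2]; exact ⟨c2, c1⟩
        exact (ihw (dtgt e) hP c3.1).trans
          (around (hA w' (hw.trans (Adj.reach hs'))) hP c3.2 hh hwh)
    exact key v hr g hg hvg

/-- L2: the explored region is admissible if it does not reach the top. -/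
theorem DS_adm {a b c d : ℤ} (hab : a < b) (hcd : c < d) {F : Finset Edg} {k : ℕ}
    (hT : ¬ Top a b d (DS a b c d F k)) : Adm a b c d (DS a b c d F k) := by
  refine ⟨?_, ?_, ?_⟩
  · intro f hf
    have h1 := DS_sub hcd F k hf
    have h2 : f.2 ≠ d := by
      intro h
      apply hT
      refine ⟨f.1, h1.1, ?_⟩
      have : ((f.1, d) : Vtx) = f := by rw [← h]
      rw [this]
      exact hf
    simp only [Phi, Set.mem_ofPred_eq] at h1
    omega
  · intro x h1 h2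
    exact DS_bot hcd F k h1 h2
  · intro f hf
    exact level_conn hcd k le_rfl f hf

end Pool.Agent.H389R2.LV
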