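import Pool.Agent.H389R2.CD.Box

/-!
# Levels: exploring the clusters of a rectangle from its bottom side

The rectangle is `[a, b] × [c, d]` with the edges `LRE a b c d`. Its faces are those of
`Phi a b c d`, including the row `c - 1` below the bottom side and the row `d` above the top side.
-/

set_option autoImplicit false

namespace Pool.Agent.H389R2.LV

open H974 Pool.Agent.H160R2.CV Pool.Agent.H389R2.CD

/-- The face `f` touches the vertex `v`. -/
def Cor (v f : Vtx) : Prop := (f.1 = v.1 ∨ f.1 = v.1 - 1) ∧ (f.2 = v.2 ∨ f.2 = v.2 - 1)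

/-- The faces. -/
def Phi (a b c d : ℤ) : Set Vtx := {f | (a ≤ f.1 ∧ f.1 < b) ∧ (c - 1 ≤ f.2 ∧ f.2 ≤ d)}

/-- The faces joined to the bottom row by a closed dual path. -/
def DS0 (a b c d : ℤ) (F : Finset Edg) : Set Vtx :=
  {f | ∃ x, (a ≤ x ∧ x < b) ∧ DReach (↑(LRE a b c d) \ ↑F) (x, c - 1) f}

/-- The vertices joined by an open path to a corner of a face of `D`. -/
def PSt (a b c d : ℤ) (D : Set Vtx) (F : Finset Edg) : Set Vtx :=
  {v | ∃ f ∈ D, ∃ u : Vtx, Cor u f ∧ (a ≤ u.1 ∧ u.1 ≤ b) ∧ (c ≤ u.2 ∧ u.2 ≤ d) ∧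
    Reach (↑F ∩ ↑(LRE a b c d)) u v}

/-- The faces joined by a closed dual path to a face at a vertex of `V`. -/
def DSt (a b c d : ℤ) (V : Set Vtx) (F : Finset Edg) : Set Vtx :=
  {f | ∃ v ∈ V, ∃ g ∈ Phi a b c d, Cor v g ∧ DReach (↑(LRE a b c d) \ ↑F) g f}

/-- The faces of level at most `k`: at most `2 k` changes of colour from the bottom row. -/
def DS (a b c d : ℤ) (F : Finset Edg) : ℕ → Set Vtx
  | 0 => DS0 a b c d F
  | k + 1 => DSt a b c d (PSt a b c d (DS a b c d F k) F) F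

/-- The vertices joined by an open path to a corner of a face of level at most `k`. -/
def PS (a b c d : ℤ) (F : Finset Edg) (k : ℕ) : Set Vtx := PSt a b c d (DS a b c d F k) F

/-- `A` contains a face of the top row. -/
def Top (a b d : ℤ) (A : Set Vtx) : Prop := ∃ x, (a ≤ x ∧ x < b) ∧ ((x, d) : Vtx) ∈ A

open Classical in
/-- The explored edges: edges with a face in `A`. -/
noncomputable def EA (a b c d : ℤ) (A : Set Vtx) : Finset Edg :=
  (LRE a b c d).filter (fun e => dsrc e ∈ A ∨ dtgt e ∈ A)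

theorem mem_EA {a b c d : ℤ} {A : Set Vtx} {e : Edg} :
    e ∈ EA a b c d A ↔ e ∈ LRE a b c d ∧ (dsrc e ∈ A ∨ dtgt e ∈ A) := by
  classical
  unfold EA
  rw [Finset.mem_filter]

/-- Admissible sets of explored faces. -/
structure Adm (a b c d : ℤ) (A : Set Vtx) : Prop where
  sub : ∀ f ∈ A, (a ≤ f.1 ∧ f.1 < b) ∧ (c - 1 ≤ f.2 ∧ f.2 < d)
  bot : ∀ x, a ≤ x → x < b → ((x, c - 1) : Vtx) ∈ A
  conn : ∀ f ∈ A, DReach {e | dsrc e ∈ A ∧ dtgt e ∈ A} (a, c - 1) f

/-- The half-infinite strip of faces above the rectangle. -/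
def St (a b c : ℤ) : Set Vtx := {f | (a ≤ f.1 ∧ f.1 < b) ∧ c - 1 ≤ f.2}

/-- The component of the top row in the complement of `A`. -/
def CT (a b c d : ℤ) (A : Set Vtx) : Set Vtx :=
  {f | DReach {e | (dsrc e ∈ St a b c ∧ dsrc e ∉ A) ∧ (dtgt e ∈ St a b c ∧ dtgt e ∉ A)} (a, d) f}

/-- The frontier vertices. -/
def V0 (a b c d : ℤ) (A : Set Vtx) : Set Vtx :=
  {v | (∃ f ∈ A, Cor v f) ∧ ∃ g ∈ CT a b c d A, Cor v g}

/-- The frontier edges. -/
def G0 (a b c d : ℤ) (A : Set Vtx) : Set Edg :=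
  {e | e ∈ LRE a b c d ∧ ((dsrc e ∈ A ∧ dtgt e ∈ CT a b c d A) ∨
    (dsrc e ∈ CT a b c d A ∧ dtgt e ∈ A))}

/-- A vertex `w` of `A` above which there is a free cone. -/
def Peak (N : ℤ) (A : Set Vtx) (w : Vtx) : Prop :=
  (∃ f ∈ A, Cor w f) ∧ |w.1| < 16 * N ∧ (0 ≤ w.2 ∧ w.2 ≤ 256 * N) ∧
  ∀ v : Vtx, |v.1 - w.1| ≤ 8 * N → 40 * |v.1 - w.1| < v.2 - w.2 → ∀ f, Cor v f → f ∉ A

/-- The edges of the square annulus of radii `100 r` and `260 r` around the origin. -/
noncomputable def AN (r : ℕ) : Finset Edg :=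
  RE (-(260 * r)) (260 * r) (100 * r) (260 * r) ∪ RE (-(260 * r)) (260 * r) (-(260 * r)) (-(100 * r)) ∪
    (RE (100 * r) (260 * r) (-(260 * r)) (260 * r) ∪ RE (-(260 * r)) (-(100 * r)) (-(260 * r)) (260 * r))

/-- The annulus around `w`. -/
noncomputable def ANw (w : Vtx) (r : ℕ) : Finset Edg := (trl w.1 w.2).mp (AN r)

/-- The trial at scale `r` around the origin: a circuit around the origin, a vertical crossing
joining it to the circuit around `(0, 250 r)`, and many far reaching vertices there. -/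
def Trl (t α E : ℝ) (r : ℕ) (H : Finset Edg) : Prop :=
  Circ (100 * r) (260 * r) H ∧ TBc (-(2 * (r : ℤ))) (2 * r) (100 * r) (260 * r) H ∧
    Circ (2 * r) (4 * r) ((trl 0 (-(250 * (r : ℤ)))).mp H) ∧
    SG t α E r (FT r ((trl 0 (-(250 * (r : ℤ)))).mp H))

/-- The trial at scale `r` around `w`. -/
def Trw (t α E : ℝ) (w : Vtx) (r : ℕ) (H : Finset Edg) : Prop :=
  Trl t α E r ((trl (-w.1) (-w.2)).mp H)

/-- All edges which are used for the rectangle `[-32 N, 32 N] × [0, 256 N]`. -/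
noncomputable def Big (N : ℤ) : Finset Edg := RE (-(48 * N)) (48 * N) (-(16 * N)) (272 * N)

end Pool.Agent.H389R2.LV
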