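import Pool.Agent.H389R2.LV.Defs

set_option autoImplicit false
set_option maxHeartbeats 1000000

namespace Pool.Agent.H389R2.LV

open H974 Pool.Agent.H160R2.CV Pool.Agent.H389R2.CD

/-- L6: every admissible set has a peak. -/
theorem exists_peak {N : ℤ} (hN : 1 ≤ N) {A : Set Vtx}
    (hA : Adm (-(32 * N)) (32 * N) 0 (256 * N) A) : ∃ w : Vtx, Peak N A w := by
  classical
  have hcor : ∀ v : Vtx, (∃ f ∈ A, Cor v f) →
      (-(32 * N) ≤ v.1 ∧ v.1 ≤ 32 * N) ∧ (-1 ≤ v.2 ∧ v.2 ≤ 256 * N) := by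
    rintro v ⟨f, hf, h1, h2⟩
    obtain ⟨⟨a1, a2⟩, a3, a4⟩ := hA.sub f hf
    refine ⟨⟨?_, ?_⟩, ?_, ?_⟩
    · rcases h1 with h | h <;> omega
    · rcases h1 with h | h <;> omega
    · rcases h2 with h | h <;> omega
    · rcases h2 with h | h <;> omega
  have h00 : ∃ f ∈ A, Cor ((0, 0) : Vtx) f := by
    refine ⟨(0, 0 - 1), hA.bot 0 (by omega) (by omega), Or.inl rfl, Or.inr rfl⟩
  set S : Finset Vtx := (Finset.Icc (-(32 * N)) (32 * N) ×ˢ Finset.Icc (-1) (256 * N)).filter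
    (fun v => ∃ f ∈ A, Cor v f) with hS
  have hmem : ∀ v : Vtx, v ∈ S ↔ ∃ f ∈ A, Cor v f := by
    intro v
    rw [hS, Finset.mem_filter, Finset.mem_product, Finset.mem_Icc, Finset.mem_Icc]
    constructor
    · exact fun h => h.2
    · exact fun h => ⟨hcor v h, h⟩
  obtain ⟨w, hw, hmax⟩ := Finset.exists_max_image S (fun v : Vtx => N * v.2 - v.1 ^ 2)
    ⟨(0, 0), (hmem _).2 h00⟩
  have h0 := hmax (0, 0) ((hmem _).2 h00)
  simp only at h0
  -- a maximiser with `|w.1| < 16 N`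
  have hw2 : ∃ w : Vtx, (∃ f ∈ A, Cor w f) ∧ |w.1| < 16 * N ∧ 0 ≤ N * w.2 - w.1 ^ 2 ∧
      ∀ v ∈ S, N * v.2 - v.1 ^ 2 ≤ N * w.2 - w.1 ^ 2 := by
    by_cases h16 : |w.1| < 16 * N
    · exact ⟨w, (hmem w).1 hw, h16, by linarith, hmax⟩
    · push Not at h16
      have h1 : (16 * N) ^ 2 ≤ w.1 ^ 2 := by
        rw [← sq_abs w.1]
        exact pow_le_pow_left₀ (by omega) h16 2
      have h2 := (hcor w ((hmem w).1 hw)).2.2
      have h3 : N * w.2 ≤ N * (256 * N) := mul_le_mul_of_nonneg_left h2 (by omega)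
      have h4 : N * w.2 - w.1 ^ 2 ≤ 0 := by nlinarith
      refine ⟨(0, 0), h00, by simp; omega, by simp, fun v hv => ?_⟩
      have := hmax v hv
      simp only
      linarith
  obtain ⟨w, hwc, hw16, hw0, hwm⟩ := hw2
  refine ⟨w, hwc, hw16, ⟨?_, (hcor w hwc).2.2⟩, ?_⟩
  · have : 0 ≤ N * w.2 := by nlinarith [sq_nonneg w.1]
    by_contra hneg
    push Not at hneg
    nlinarith
  · intro v hv1 hv2 f hf hfA
    have h1 := hwm v ((hmem v).2 ⟨f, hfA, hf⟩)
    set t := |v.1 - w.1| with ht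
    have ht0 : 0 ≤ t := abs_nonneg _
    have h2 : v.1 ^ 2 - w.1 ^ 2 ≤ t * (40 * N) := by
      have e1 : v.1 ^ 2 - w.1 ^ 2 = (v.1 - w.1) * (v.1 + w.1) := by ring
      have e2 : |v.1 + w.1| ≤ 40 * N := by
        have : v.1 + w.1 = (v.1 - w.1) + 2 * w.1 := by ring
        rw [this]
        refine (abs_add_le _ _).trans ?_
        rw [abs_mul, abs_two]
        linarith
      rw [e1]
      refine (le_abs_self _).trans ?_
      rw [abs_mul]
      exact mul_le_mul_of_nonneg_left e2 ht0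
    have h3 : N * (40 * t) < N * (v.2 - w.2) := mul_lt_mul_of_pos_left hv2 (by omega)
    nlinarith

end Pool.Agent.H389R2.LV
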