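import Pool.Agent.H389R2.LV.Rsw

set_option autoImplicit false
set_option maxHeartbeats 1000000

namespace Pool.Agent.H389R2.LV

open H974 Pool.Agent.H160R2.CV Pool.Agent.H389R2.CD

theorem L10_mp_union (g : LSym) (F G : Finset Edg) : g.mp (F ∪ G) = g.mp F ∪ g.mp G := by
  ext e; simp [LSym.mem_mp]

theorem L10_mem_AN {r : ℕ} {e : Edg} : e ∈ AN r ↔
    (e ∈ RE (-(260 * (r : ℤ))) (260 * r) (100 * r) (260 * r) ∨
      e ∈ RE (-(260 * (r : ℤ))) (260 * r) (-(260 * r)) (-(100 * r))) ∨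
    (e ∈ RE (100 * (r : ℤ)) (260 * r) (-(260 * r)) (260 * r) ∨
      e ∈ RE (-(260 * (r : ℤ))) (-(100 * r)) (-(260 * r)) (260 * r)) := by
  unfold AN
  simp only [Finset.mem_union]

theorem L10_trl_comp (s t s' t' : ℤ) (F : Finset Edg) :
    (trl s t).mp ((trl s' t').mp F) = (trl (s + s') (t + t')).mp F := by
  ext ⟨x, y, b⟩
  simp only [LSym.mem_mp, trl_φs]
  rw [show x - s - s' = x - (s + s') by ring, show y - t - t' = y - (t + t') by ring]

theorem L10_mp_ANw (w : Vtx) (r : ℕ) : (trl (-w.1) (-w.2)).mp (ANw w r) = AN r := by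
  unfold ANw
  rw [trl_trl]

/-- the circuit event is local -/
theorem L10_Circ_local {R1 R2 : ℤ} {F S : Finset Edg} (h1 : LRE (-R2) R2 R1 R2 ⊆ S)
    (h2 : LRE (-R2) R2 (-R2) (-R1) ⊆ S) (h3 : TBE R1 R2 (-R2) R2 ⊆ S)
    (h4 : TBE (-R2) (-R1) (-R2) R2 ⊆ S) : Circ R1 R2 F ↔ Circ R1 R2 (F ∩ S) := by
  unfold Circ
  rw [← LRc_local h1, ← LRc_local h2, ← TBc_local h3, ← TBc_local h4]

theorem L10_s1 {r : ℕ} : LRE (-(260 * (r : ℤ))) (260 * r) (100 * r) (260 * r) ⊆ AN r :=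
  fun _ he => L10_mem_AN.mpr (Or.inl (Or.inl (LRE_subset_RE he)))

theorem L10_s2 {r : ℕ} : LRE (-(260 * (r : ℤ))) (260 * r) (-(260 * r)) (-(100 * r)) ⊆ AN r :=
  fun _ he => L10_mem_AN.mpr (Or.inl (Or.inr (LRE_subset_RE he)))

theorem L10_s3 {r : ℕ} : TBE (100 * (r : ℤ)) (260 * r) (-(260 * r)) (260 * r) ⊆ AN r :=
  fun _ he => L10_mem_AN.mpr (Or.inr (Or.inl (TBE_subset_RE he)))

theorem L10_s4 {r : ℕ} : TBE (-(260 * (r : ℤ))) (-(100 * r)) (-(260 * r)) (260 * r) ⊆ AN r :=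
  fun _ he => L10_mem_AN.mpr (Or.inr (Or.inr (TBE_subset_RE he)))

theorem L10_s5 {r : ℕ} : TBE (-(2 * (r : ℤ))) (2 * r) (100 * r) (260 * r) ⊆ AN r := by
  intro e he
  refine L10_mem_AN.mpr (Or.inl (Or.inl ?_))
  exact RE_subset (by omega) (by omega) le_rfl le_rfl (TBE_subset_RE he)

theorem L10_s6 {r : ℕ} : RE (-(6 * (r : ℤ))) (6 * r) (244 * r) (256 * r) ⊆ AN r := by
  intro e he
  refine L10_mem_AN.mpr (Or.inl (Or.inl ?_))
  exact RE_subset (by omega) (by omega) (by omega) (by omega) he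

theorem L10_Circ_AN {r : ℕ} {F : Finset Edg} :
    Circ (100 * r) (260 * r) F ↔ Circ (100 * r) (260 * r) (F ∩ AN r) :=
  L10_Circ_local L10_s1 L10_s2 L10_s3 L10_s4

theorem L10_Circ_box {r : ℕ} {F : Finset Edg} :
    Circ (2 * r) (4 * r) F ↔ Circ (2 * r) (4 * r) (F ∩ boxE (6 * r)) := by
  have h : RE (-(4 * (r : ℤ))) (4 * r) (-(4 * r)) (4 * r) ⊆ boxE (6 * r) := by
    unfold boxE
    exact RE_subset (by push_cast; omega) (by push_cast; omega) (by push_cast; omega)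
      (by push_cast; omega)
  refine L10_Circ_local ?_ ?_ ?_ ?_
  · exact LRE_subset_RE.trans ((RE_subset le_rfl le_rfl (by omega) le_rfl).trans h)
  · exact LRE_subset_RE.trans ((RE_subset le_rfl le_rfl le_rfl (by omega)).trans h)
  · exact TBE_subset_RE.trans ((RE_subset (by omega) le_rfl le_rfl le_rfl).trans h)
  · exact TBE_subset_RE.trans ((RE_subset le_rfl (by omega) le_rfl le_rfl).trans h)

theorem L10_FT_box {r : ℕ} {F : Finset Edg} : FT r F = FT r (F ∩ boxE (6 * r)) := by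
  ext x
  rw [mem_FT, mem_FT, Finset.inter_assoc, Finset.inter_self]

theorem L10_box_trl {r : ℕ} :
    (trl 0 (-(250 * (r : ℤ)))).mp (RE (-(6 * (r : ℤ))) (6 * r) (244 * r) (256 * r)) =
      boxE (6 * r) := by
  unfold boxE
  rw [trl_RE]
  push_cast
  congr 1 <;> ring

theorem L10_inter_box {r : ℕ} {F : Finset Edg} :
    (trl 0 (-(250 * (r : ℤ)))).mp F ∩ boxE (6 * r) =
      (trl 0 (-(250 * (r : ℤ)))).mp (F ∩ AN r) ∩ boxE (6 * r) := by
  rw [← L10_box_trl, ← LSym.mp_inter, ← LSym.mp_inter, Finset.inter_assoc,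
    Finset.inter_eq_right.mpr L10_s6]

theorem L10_Trl_local {t α E : ℝ} {r : ℕ} {H : Finset Edg} :
    Trl t α E r H ↔ Trl t α E r (H ∩ AN r) := by
  unfold Trl
  rw [← L10_Circ_AN, ← TBc_local L10_s5]
  rw [L10_Circ_box (F := (trl 0 (-(250 * (r : ℤ)))).mp H),
    L10_Circ_box (F := (trl 0 (-(250 * (r : ℤ)))).mp (H ∩ AN r)),
    L10_FT_box (F := (trl 0 (-(250 * (r : ℤ)))).mp H),
    L10_FT_box (F := (trl 0 (-(250 * (r : ℤ)))).mp (H ∩ AN r)), ← L10_inter_box]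

theorem L10_Trw_local {t α E : ℝ} {w : Vtx} {r : ℕ} {H : Finset Edg} :
    Trw t α E w r H ↔ Trw t α E w r (H ∩ ANw w r) := by
  unfold Trw
  rw [L10_Trl_local, LSym.mp_inter, L10_mp_ANw]

/-- L10a: the trial depends only on the unexplored edges of the annulus. -/
theorem trw_local {t α E : ℝ} {w : Vtx} {r : ℕ} (hr : 1 ≤ r) {F X : Finset Edg} :
    Trw t α E w r (F ∪ X) ↔ Trw t α E w r ((F ∩ (ANw w r \ X)) ∪ X) := by
  have e : (F ∪ X) ∩ ANw w r = ((F ∩ (ANw w r \ X)) ∪ X) ∩ ANw w r := by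
    ext e
    simp only [Finset.mem_inter, Finset.mem_union, Finset.mem_sdiff]
    tauto
  rw [L10_Trw_local, e, ← L10_Trw_local]

/-- L10b: the trial has positive probability, whatever edges `X` away from the small box are
forced to be open. -/
theorem trial_prob (hAr : ArS) {t : ℝ} (ht1 : 1 ≤ t) (ht : t < 91 / 48) :
    ∃ p α E : ℝ, 0 < p ∧ 0 < α ∧ 0 < E ∧ ∀ r : ℕ, 1 ≤ r → ∀ (w : Vtx) (S X : Finset Edg),
      ANw w r ⊆ S →
      (∀ e ∈ X, e ∉ RE (w.1 - 6 * r) (w.1 + 6 * r) (w.2 + 244 * r) (w.2 + 256 * r)) →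
      p ≤ Pr P S (fun F => Trw t α E w r (F ∪ X)) := by
  obtain ⟨c, hc, hcl⟩ := rsw_long 40
  obtain ⟨p, a, E, hp, ha, hE, h⟩ := std_prob hAr ht1 ht
    (β := (1 / 2 : ℝ) ^ 188 * c * (1 / 2 : ℝ) ^ 188) (by positivity)
  refine ⟨p, a, E, hp, ha, hE, fun r hr w S X hS hX => ?_⟩
  have hrz : (1 : ℤ) ≤ r := by exact_mod_cast hr
  set g : LSym := trl (-w.1) (-w.2 - 250 * r) with hg
  set S' := g.mp S with hS'
  set X' := g.mp X with hX'
  -- the box
  have hbox : g.mp (RE (w.1 - 6 * r) (w.1 + 6 * r) (w.2 + 244 * r) (w.2 + 256 * r)) =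
      boxE (6 * r) := by
    rw [hg, trl_RE]
    unfold boxE
    push_cast
    congr 1 <;> ring
  have hANS : (trl 0 (-(250 * (r : ℤ)))).mp (AN r) ⊆ S' := by
    have e1 : (trl 0 (-(250 * (r : ℤ)))).mp (AN r) = g.mp (ANw w r) := by
      unfold ANw
      rw [hg, L10_trl_comp]
      congr 2 <;> ring
    rw [e1]
    exact g.mp_mono hS
  have hboxS : boxE (6 * r) ⊆ S' := by
    rw [← L10_box_trl]
    exact (LSym.mp_mono _ L10_s6).trans hANS
  have hXbox : X' ∩ boxE (6 * r) = ∅ := by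
    rw [← hbox, hX', ← LSym.mp_inter]
    have : X ∩ RE (w.1 - 6 * r) (w.1 + 6 * r) (w.2 + 244 * r) (w.2 + 256 * r) = ∅ := by
      rw [← Finset.disjoint_iff_inter_eq_empty, Finset.disjoint_left]
      exact hX
    rw [this]
    rfl
  set B : Finset Edg → Prop := fun F =>
    (Circ (100 * r) (260 * r) ((trl 0 (250 * (r : ℤ))).mp (F ∪ X')) ∧
      TBc (-(2 * (r : ℤ))) (2 * r) (100 * r) (260 * r) ((trl 0 (250 * (r : ℤ))).mp (F ∪ X'))) ∧
      Circ (2 * r) (4 * r) (F ∪ X') with hB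
  have i1 : IncrE S' (fun F => Circ (100 * r) (260 * r) ((trl 0 (250 * (r : ℤ))).mp (F ∪ X'))) :=
    fun F G hFG _ hF => hF.mono (LSym.mp_mono _ (Finset.union_subset_union_left hFG))
  have i2 : IncrE S' (fun F => TBc (-(2 * (r : ℤ))) (2 * r) (100 * r) (260 * r)
      ((trl 0 (250 * (r : ℤ))).mp (F ∪ X'))) :=
    fun F G hFG _ hF => hF.mono (LSym.mp_mono _ (Finset.union_subset_union_left hFG))
  have i3 : IncrE S' (fun F => Circ (2 * r) (4 * r) (F ∪ X')) :=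
    fun F G hFG _ hF => hF.mono (Finset.union_subset_union_left hFG)
  have hBi : IncrE S' B := fun F G hFG hGS hF =>
    ⟨⟨i1 F G hFG hGS hF.1.1, i2 F G hFG hGS hF.1.2⟩, i3 F G hFG hGS hF.2⟩
  have hback : AN r ⊆ (trl 0 (250 * (r : ℤ))).mp S' := by
    have e1 := LSym.mp_mono (trl 0 (250 * (r : ℤ))) hANS
    rw [L10_trl_comp] at e1
    have e2 : (trl (0 + 0) (250 * (r : ℤ) + -(250 * (r : ℤ)))).mp (AN r) = AN r := by
      rw [show (0 : ℤ) + 0 = 0 by ring, show 250 * (r : ℤ) + -(250 * (r : ℤ)) = 0 by ring]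
      ext ⟨x, y, b⟩
      simp only [LSym.mem_mp, trl_φs, sub_zero]
    rw [e2] at e1
    exact e1
  have p1 : (1 / 2 : ℝ) ^ 188 ≤ Pr P S'
      (fun F => Circ (100 * r) (260 * r) ((trl 0 (250 * (r : ℤ))).mp (F ∪ X'))) := by
    have k0 : (1 / 2 : ℝ) ^ 188 ≤ Pr P (RE (-(260 * (r : ℤ))) (260 * r) (-(260 * r)) (260 * r))
        (Circ (100 * r) (260 * r)) := by
      refine le_trans ?_ (pr_Circ (q := 1 / 2) (by norm_num) (by norm_num) (R1 := 100 * r)
        (R2 := 260 * r) (by positivity) (by omega) (Finset.Subset.refl _))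
      have k := rsw_p (p := 1 / 2) le_rfl (by norm_num) (n := 80 * r) (w := 2 * (260 * (r : ℤ)))
        (h := 260 * (r : ℤ) - 100 * r) (by omega) (by omega) (by omega) (by omega)
      calc (1 / 2 : ℝ) ^ 188 = ((1 / 2 : ℝ) ^ 47) ^ 4 := by rw [← pow_mul]
        _ ≤ _ := pow_le_pow_left₀ (by positivity) k 4
    have hANRE : AN r ⊆ RE (-(260 * (r : ℤ))) (260 * r) (-(260 * r)) (260 * r) := by
      intro e he
      rcases L10_mem_AN.mp he with (h | h) | (h | h)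
      · exact RE_subset le_rfl le_rfl (by omega) le_rfl h
      · exact RE_subset le_rfl le_rfl le_rfl (by omega) h
      · exact RE_subset (by omega) le_rfl le_rfl le_rfl h
      · exact RE_subset le_rfl (by omega) le_rfl le_rfl h
    have k1 : Pr P (RE (-(260 * (r : ℤ))) (260 * r) (-(260 * r)) (260 * r))
        (Circ (100 * r) (260 * r)) = Pr P (AN r) (Circ (100 * r) (260 * r)) :=
      Pr_local hANRE (fun F _ => L10_Circ_AN)
    have k2 : Pr P ((trl 0 (250 * (r : ℤ))).mp S') (Circ (100 * r) (260 * r)) =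
        Pr P (AN r) (Circ (100 * r) (260 * r)) :=
      Pr_local hback (fun F _ => L10_Circ_AN)
    have k3 : Pr P ((trl 0 (250 * (r : ℤ))).mp S') (Circ (100 * r) (260 * r)) =
        Pr P S' (fun F => Circ (100 * r) (260 * r) ((trl 0 (250 * (r : ℤ))).mp F)) :=
      LSym.pr _ (1 / 2) S' _
    rw [k1, ← k2, k3] at k0
    refine k0.trans (Pr_mono w_ok ?_)
    intro F _ hF
    exact hF.mono (LSym.mp_mono _ Finset.subset_union_left)
  have p2 : c ≤ Pr P S' (fun F => TBc (-(2 * (r : ℤ))) (2 * r) (100 * r) (260 * r)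
      ((trl 0 (250 * (r : ℤ))).mp (F ∪ X'))) := by
    have k0 := hcl (260 * r - 100 * r) (2 * r - -(2 * (r : ℤ))) (by omega) (by omega)
      (by push_cast; omega)
    have k1 : Pr P ((trl 0 (250 * (r : ℤ))).mp S')
        (TBc (-(2 * (r : ℤ))) (2 * r) (100 * r) (260 * r)) =
        hh (1 / 2) (260 * r - 100 * r) (2 * r - -(2 * (r : ℤ))) :=
      pr_TBc (1 / 2) (L10_s5.trans hback)
    have k3 : Pr P ((trl 0 (250 * (r : ℤ))).mp S')
        (TBc (-(2 * (r : ℤ))) (2 * r) (100 * r) (260 * r)) =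
        Pr P S' (fun F => TBc (-(2 * (r : ℤ))) (2 * r) (100 * r) (260 * r)
          ((trl 0 (250 * (r : ℤ))).mp F)) :=
      LSym.pr _ (1 / 2) S' _
    rw [← k1, k3] at k0
    refine k0.trans (Pr_mono w_ok ?_)
    intro F _ hF
    exact hF.mono (LSym.mp_mono _ Finset.subset_union_left)
  have p3 : (1 / 2 : ℝ) ^ 188 ≤ Pr P S' (fun F => Circ (2 * r) (4 * r) (F ∪ X')) := by
    refine (pr_circ2 hr hboxS).trans (Pr_mono w_ok ?_)
    intro F _ hF
    exact hF.mono Finset.subset_union_left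
  have hBp : (1 / 2 : ℝ) ^ 188 * c * (1 / 2 : ℝ) ^ 188 ≤ Pr P S' B := by
    have j1 := Pr_harris w_ok i1 i2
    have j2 := Pr_harris w_ok (S := S') (A := fun F =>
      Circ (100 * r) (260 * r) ((trl 0 (250 * (r : ℤ))).mp (F ∪ X')) ∧
      TBc (-(2 * (r : ℤ))) (2 * r) (100 * r) (260 * r) ((trl 0 (250 * (r : ℤ))).mp (F ∪ X')))
      (fun F G hFG hGS hF => ⟨i1 F G hFG hGS hF.1, i2 F G hFG hGS hF.2⟩) i3
    refine le_trans ?_ j2
    refine mul_le_mul (le_trans ?_ j1) p3 (by positivity) (Pr_nonneg w_ok _ _)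
    exact mul_le_mul p1 p2 hc.le (Pr_nonneg w_ok _ _)
  have hfin := h r hr S' hboxS B hBi hBp
  have e1 : Pr P S' (fun F => B F ∧ SG t a E r (FT r F)) =
      Pr P S (fun F => B (g.mp F) ∧ SG t a E r (FT r (g.mp F))) := LSym.pr g (1 / 2) S _
  rw [e1] at hfin
  refine hfin.trans (Pr_mono w_ok ?_)
  rintro F _ ⟨⟨⟨b1, b2⟩, b3⟩, b4⟩
  have q1 : (trl 0 (250 * (r : ℤ))).mp (g.mp F ∪ X') = (trl (-w.1) (-w.2)).mp (F ∪ X) := by
    rw [hX', ← L10_mp_union, hg, L10_trl_comp]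
    congr 2 <;> ring
  have q2 : (trl 0 (-(250 * (r : ℤ)))).mp ((trl (-w.1) (-w.2)).mp (F ∪ X)) = g.mp F ∪ X' := by
    rw [hX', ← L10_mp_union, hg, L10_trl_comp]
    congr 2 <;> ring
  rw [q1] at b1 b2
  unfold Trw Trl
  rw [q2]
  refine ⟨b1, b2, b3, ?_⟩
  have q3 : FT r (g.mp F ∪ X') = FT r (g.mp F) := by
    rw [L10_FT_box, Finset.union_inter_distrib_right, hXbox, Finset.union_empty, ← L10_FT_box]
  rw [q3]
  exact b4

/-- L10c: annuli of different scales are disjoint. -/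
theorem ANw_disj {w : Vtx} {r s : ℕ} (h : 260 * s < 100 * r) : Disjoint (ANw w r) (ANw w s) := by
  rw [Finset.disjoint_left]
  rintro ⟨x, y, b⟩ h1 h2
  unfold ANw at h1 h2
  rw [LSym.mem_mp, L10_mem_AN] at h1 h2
  rw [trl_φs] at h1 h2
  have h' : 260 * (s : ℤ) < 100 * r := by exact_mod_cast h
  cases b
  · simp only [mem_RE_false] at h1 h2
    omega
  · simp only [mem_RE_true] at h1 h2
    omega

end Pool.Agent.H389R2.LV
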