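import Pool.Agent.H389R2.LV.Mark
import Pool.Agent.H389R2.LV.PeakL
import Pool.Agent.H389R2.LV.TrialPr

set_option autoImplicit false
set_option maxHeartbeats 1000000

namespace Pool.Agent.H389R2.LV

open H974 Pool.Agent.H160R2.CV Pool.Agent.H389R2.CD

theorem mem_AN_box {r : ℕ} {e : Edg} (he : e ∈ AN r) :
    (-(260 * (r : ℤ)) ≤ e.1 ∧ e.1 ≤ 260 * r) ∧ (-(260 * (r : ℤ)) ≤ e.2.1 ∧ e.2.1 ≤ 260 * r) ∧
      (e.2.2 = true → e.1 < 260 * r) ∧ (e.2.2 = false → e.2.1 < 260 * r) := by
  obtain ⟨x, y, b⟩ := e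
  unfold AN at he
  simp only [Finset.mem_union] at he
  have hr : (0 : ℤ) ≤ r := by positivity
  cases b
  · simp only [mem_RE_false] at he
    simp only
    refine ⟨?_, ?_, ?_, ?_⟩
    · omega
    · omega
    · intro h; simp at h
    · intro _; omega
  · simp only [mem_RE_true] at he
    simp only
    refine ⟨?_, ?_, ?_, ?_⟩
    · omega
    · omega
    · intro _; omega
    · intro h; simp at h

theorem ANw_sub_Big {N : ℤ} {w : Vtx} {r : ℕ} (h1 : |w.1| < 16 * N) (h2 : 0 ≤ w.2)
    (h3 : w.2 ≤ 256 * N) (h4 : 260 * (r : ℤ) ≤ 15 * N) : ANw w r ⊆ Big N := by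
  intro e he
  unfold ANw at he
  rw [LSym.mem_mp] at he
  have hb := mem_AN_box he
  rw [abs_lt] at h1
  obtain ⟨x, y, b⟩ := e
  have e1 : (trl w.1 w.2).φ.symm (x, y, b) = (x - w.1, y - w.2, b) := rfl
  rw [e1] at hb
  simp only at hb
  unfold Big
  cases b
  · rw [mem_RE_false]
    have := hb.2.2.2 rfl
    omega
  · rw [mem_RE_true]
    have := hb.2.2.1 rfl
    omega

theorem cor_src_dsrc (e : Edg) : Cor (src e) (dsrc e) := by
  obtain ⟨x, y, b⟩ := e
  unfold Cor
  cases b <;> simp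

theorem cor_src_dtgt (e : Edg) : Cor (src e) (dtgt e) := by
  obtain ⟨x, y, b⟩ := e
  unfold Cor
  cases b <;> simp

theorem EA_cone {a b c d : ℤ} {N : ℤ} {A : Set Vtx} {w : Vtx} (hw : Peak N A w) {s : ℕ}
    (hs : 1 ≤ s) (hsN : 260 * (s : ℤ) ≤ 15 * N) (e : Edg) (he : e ∈ EA a b c d A) :
    e ∉ RE (w.1 - 6 * s) (w.1 + 6 * s) (w.2 + 244 * s) (w.2 + 256 * s) := by
  intro hR
  have hsz : (1 : ℤ) ≤ s := by exact_mod_cast hs
  have hpos : |(src e).1 - w.1| ≤ 6 * s ∧ w.2 + 244 * s ≤ (src e).2 := by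
    obtain ⟨x, y, b⟩ := e
    rw [src_mk]
    simp only
    cases b
    · rw [mem_RE_false] at hR
      exact ⟨by rw [abs_le]; omega, by omega⟩
    · rw [mem_RE_true] at hR
      exact ⟨by rw [abs_le]; omega, by omega⟩
  have hc := hw.2.2.2 (src e) (by omega) (by omega)
  rw [mem_EA] at he
  rcases he.2 with h | h
  · exact hc _ (cor_src_dsrc e) h
  · exact hc _ (cor_src_dtgt e) h

/-- the trials at different scales are independent -/
theorem trials_fail {t α E p : ℝ} {w : Vtx} {r : ℕ → ℕ} {S X : Finset Edg} (n : ℕ)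
    (hr1 : ∀ j < n, 1 ≤ r j)
    (hrr : ∀ i j, i < j → j < n → 260 * r j < 100 * r i)
    (hS : ∀ j < n, ANw w (r j) ⊆ S) (hp0 : p ≤ 1)
    (hp : ∀ j < n, p ≤ Pr P S (fun F => Trw t α E w (r j) (F ∪ X))) :
    Pr P S (fun F => ∀ j < n, ¬ Trw t α E w (r j) (F ∪ X)) ≤ (1 - p) ^ n := by
  set V : ℕ → Finset Edg := fun j => ANw w (r j) \ X with hV
  have loc : ∀ j F, 1 ≤ r j → (Trw t α E w (r j) (F ∪ X) ↔ Trw t α E w (r j) ((F ∩ V j) ∪ X)) :=
    fun j F h => trw_local h
  induction n with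
  | zero =>
    rw [pow_zero]
    exact Pr_le_one w_ok _ _
  | succ n ih =>
    have ih' := ih (fun j hj => hr1 j (by omega)) (fun i j hij hj => hrr i j hij (by omega))
      (fun j hj => hS j (by omega)) (fun j hj => hp j (by omega))
    have e : Pr P S (fun F => ∀ j < n + 1, ¬ Trw t α E w (r j) (F ∪ X))
        = Pr P S (fun F => (∀ j < n, ¬ Trw t α E w (r j) (F ∪ X)) ∧
          ¬ Trw t α E w (r n) (F ∪ X)) := by
      apply Pr_congr
      intro F _
      constructor
      · intro h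
        exact ⟨fun j hj => h j (by omega), h n (by omega)⟩
      · rintro ⟨h1, h2⟩ j hj
        rcases Nat.lt_succ_iff_lt_or_eq.mp hj with h | h
        · exact h1 j h
        · rw [h]; exact h2
    have hVS : ∀ j < n + 1, V j ⊆ S := fun j hj => Finset.sdiff_subset.trans (hS j hj)
    rw [e, Pr_indep (S := (Finset.range n).biUnion V) (T := V n), pow_succ]
    · have e2 : Pr P S (fun F => ¬ Trw t α E w (r n) (F ∪ X)) ≤ 1 - p := by
        rw [Pr_not]
        linarith [hp n (by omega)]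
      exact mul_le_mul ih' e2 (Pr_nonneg w_ok _ _) (pow_nonneg (by linarith) _)
    · intro e he
      rw [Finset.mem_biUnion] at he
      obtain ⟨j, hj, he⟩ := he
      exact hVS j (by have := Finset.mem_range.mp hj; omega) he
    · exact hVS n (by omega)
    · rw [Finset.disjoint_biUnion_left]
      intro j hj
      have hj' := Finset.mem_range.mp hj
      exact Finset.disjoint_of_subset_left Finset.sdiff_subset
        (Finset.disjoint_of_subset_right Finset.sdiff_subset
          (ANw_disj (hrr j n hj' (by omega))))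
    · intro F _
      have : ∀ j < n, (Trw t α E w (r j) (F ∪ X) ↔
          Trw t α E w (r j) ((F ∩ (Finset.range n).biUnion V) ∪ X)) := by
        intro j hj
        rw [loc j F (hr1 j (by omega)), loc j (F ∩ (Finset.range n).biUnion V) (hr1 j (by omega))]
        have : F ∩ (Finset.range n).biUnion V ∩ V j = F ∩ V j := by
          rw [Finset.inter_assoc]
          congr 1
          rw [Finset.inter_eq_right]
          exact Finset.subset_biUnion_of_mem V (Finset.mem_range.mpr hj)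
        rw [this]
      constructor
      · intro h j hj h2
        exact h j hj ((this j hj).mpr h2)
      · intro h j hj h2
        exact h j hj ((this j hj).mp h2)
    · intro F _
      exact not_congr (loc n F (hr1 n (by omega)))

/-- L11: at level `k`, all the trials around a peak fail with small probability. -/
theorem level_prob {t α E p : ℝ} {N : ℤ} (hN : 1 ≤ N) {J : ℕ} {r : ℕ → ℕ}
    (hr1 : ∀ j < J, 1 ≤ r j) (hrN : ∀ j < J, 260 * (r j : ℤ) ≤ 15 * N)
    (hrr : ∀ i j, i < j → j < J → 260 * r j < 100 * r i)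
    (hp : ∀ s : ℕ, 1 ≤ s → ∀ (w : Vtx) (S X : Finset Edg), ANw w s ⊆ S →
      (∀ e ∈ X, e ∉ RE (w.1 - 6 * s) (w.1 + 6 * s) (w.2 + 244 * s) (w.2 + 256 * s)) →
      p ≤ Pr P S (fun F => Trw t α E w s (F ∪ X)))
    {S : Finset Edg} (hS : Big N ⊆ S) (k : ℕ) :
    Pr P S (fun F => ∀ A, DS (-(32 * N)) (32 * N) 0 (256 * N) F k = A →
        ¬ Top (-(32 * N)) (32 * N) (256 * N) A ∧
        ∀ w, Peak N A w → ∀ j < J, ¬ Trw t α E w (r j)
          (F ∪ EA (-(32 * N)) (32 * N) 0 (256 * N) A)) ≤ (1 - p) ^ J := by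
  classical
  have hp1 : p ≤ 1 := (hp 1 le_rfl (0, 0) (ANw (0, 0) 1) ∅ (Finset.Subset.refl _)
    (fun e he => absurd he (Finset.notMem_empty e))).trans (Pr_le_one w_ok _ _)
  have hβ : (0 : ℝ) ≤ (1 - p) ^ J := pow_nonneg (by linarith) _
  set pk : Set Vtx → Vtx := fun A => if h : ∃ w, Peak N A w then h.choose else (0, 0) with hpk
  have pk_spec : ∀ A, (∃ w, Peak N A w) → Peak N A (pk A) := by
    intro A h
    rw [hpk]
    simp only [dif_pos h]
    exact h.choose_spec
  set Q : Set Vtx → Prop := fun A => Adm (-(32 * N)) (32 * N) 0 (256 * N) A with hQ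
  set G : Set Vtx → Finset Edg → Prop := fun A F => ∀ j < J, ¬ Trw t α E (pk A) (r j)
    (F ∪ EA (-(32 * N)) (32 * N) 0 (256 * N) A) with hG
  have hLS : LRE (-(32 * N)) (32 * N) 0 (256 * N) ⊆ S := by
    refine LRE_subset_RE.trans (subset_trans ?_ hS)
    unfold Big
    exact RE_subset (by omega) (by omega) (by omega) (by omega)
  have key := markov_DS (a := -(32 * N)) (b := 32 * N) (c := 0) (d := 256 * N) (by omega) hLS k Q G
    (β := (1 - p) ^ J) ?_ ?_
  · refine (Pr_mono w_ok ?_).trans (key.trans ?_)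
    · intro F _ hF
      have hF' := hF _ rfl
      have hA : Q (DS (-(32 * N)) (32 * N) 0 (256 * N) F k) :=
        DS_adm (by omega) (by omega) hF'.1
      exact ⟨hA, hF'.2 _ (pk_spec _ (exists_peak hN hA))⟩
    · exact mul_le_of_le_one_right hβ (Pr_le_one w_ok _ _)
  · intro A F _
    rw [hG]
    simp only
    rw [Finset.sdiff_union_self_eq_union]
  · intro A hA
    have hw := pk_spec A (exists_peak hN hA)
    have hsub : ∀ j < J, ANw (pk A) (r j) ⊆ S := fun j hj =>
      (ANw_sub_Big hw.2.1 hw.2.2.1.1 hw.2.2.1.2 (hrN j hj)).trans hS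
    exact trials_fail J hr1 hrr hsub hp1 (fun j hj => hp (r j) (hr1 j hj) (pk A) S _ (hsub j hj)
      (EA_cone hw (hr1 j hj) (hrN j hj)))

end Pool.Agent.H389R2.LV
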