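import Pool.Agent.H389R2.LV.Defs

set_option autoImplicit false
set_option maxHeartbeats 1000000

namespace Pool.Agent.H389R2.LV

open H974 Pool.Agent.H160R2.CV Pool.Agent.H389R2.CD

/-- The faces of an edge of the rectangle are faces of `Phi`. -/
theorem loc_faces {a b c d : ℤ} {e : Edg} (he : e ∈ LRE a b c d) :
    dsrc e ∈ Phi a b c d ∧ dtgt e ∈ Phi a b c d := by
  obtain ⟨x, y, _ | _⟩ := e
  · rw [mem_LRE_false] at he
    simp only [dsrc_false, dtgt_mk, Phi, Set.mem_setOf_eq]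
    omega
  · rw [mem_LRE_true] at he
    simp only [dsrc_true, dtgt_mk, Phi, Set.mem_setOf_eq]
    omega

/-- Dual paths do not leave `Phi`. -/
theorem loc_dreach {a b c d : ℤ} {F : Finset Edg} {g f : Vtx} (hg : g ∈ Phi a b c d)
    (h : DReach (↑(LRE a b c d) \ ↑F) g f) : f ∈ Phi a b c d := by
  induction h with
  | refl => exact hg
  | tail _ hs _ =>
    obtain ⟨e, he, h | h⟩ := hs
    · rw [← h.2]; exact (loc_faces he.1).2
    · rw [← h.1]; exact (loc_faces he.1).1

theorem loc_sub {a b c d : ℤ} (hcd : c < d) (F : Finset Edg) (k : ℕ) :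
    DS a b c d F k ⊆ Phi a b c d := by
  cases k with
  | zero =>
    rintro f ⟨x, hx, h⟩
    refine loc_dreach (g := (x, c - 1)) ?_ h
    simp only [Phi, Set.mem_setOf_eq]
    omega
  | succ k =>
    rintro f ⟨v, _, g, hg, _, h⟩
    exact loc_dreach hg h

theorem loc_succ {a b c d : ℤ} (hcd : c < d) (F : Finset Edg) (k : ℕ) :
    DS a b c d F k ⊆ DS a b c d F (k + 1) := by
  intro f hf
  have hP := loc_sub hcd F k hf
  obtain ⟨x, y⟩ := f
  have hP' : (a ≤ x ∧ x < b) ∧ (c - 1 ≤ y ∧ y ≤ d) := hP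
  by_cases hy : c ≤ y
  · have hc : Cor ((x, y) : Vtx) (x, y) := ⟨Or.inl rfl, Or.inl rfl⟩
    exact ⟨(x, y), ⟨(x, y), hf, (x, y), hc, ⟨hP'.1.1, hP'.1.2.le⟩, ⟨hy, hP'.2.2⟩, Reach.refl _ _⟩,
      (x, y), hP, hc, DReach.refl _ _⟩
  · have hy' : y = c - 1 := by omega
    subst hy'
    have hc : Cor ((x, c) : Vtx) (x, c - 1) := ⟨Or.inl rfl, Or.inr rfl⟩
    exact ⟨(x, c), ⟨(x, c - 1), hf, (x, c), hc, ⟨hP'.1.1, hP'.1.2.le⟩, ⟨le_rfl, hcd.le⟩,
      Reach.refl _ _⟩, (x, c - 1), hP, hc, DReach.refl _ _⟩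

theorem loc_mono {a b c d : ℤ} (hcd : c < d) (F : Finset Edg) {j k : ℕ} (hjk : j ≤ k) :
    DS a b c d F j ⊆ DS a b c d F k := by
  induction k, hjk using Nat.le_induction with
  | base => exact subset_rfl
  | succ k _ ih => exact ih.trans (loc_succ hcd F k)

/-- Closed dual paths inside an explored region. -/
theorem loc_d_iff {a b c d : ℤ} {F F' : Finset Edg} {A : Set Vtx}
    (h : ∀ e ∈ EA a b c d A, e ∈ F ↔ e ∈ F') {g : Vtx}
    (hA : ∀ f, DReach (↑(LRE a b c d) \ ↑F) g f → f ∈ A) (f : Vtx) :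
    DReach (↑(LRE a b c d) \ ↑F) g f ↔ DReach (↑(LRE a b c d) \ ↑F') g f := by
  constructor
  · intro hr
    induction hr with
    | refl => exact DReach.refl _ _
    | @tail f1 f2 h1 hs ih =>
      have hf1 : f1 ∈ A := hA f1 h1
      refine ih.tail ?_
      obtain ⟨e, he, h2⟩ := hs
      refine ⟨e, ⟨he.1, fun hcon => he.2 ?_⟩, h2⟩
      have hE : e ∈ EA a b c d A := by
        rw [mem_EA]
        refine ⟨he.1, ?_⟩
        rcases h2 with h2 | h2
        · left; rw [h2.1]; exact hf1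
        · right; rw [h2.2]; exact hf1
      exact (h e hE).2 hcon
  · intro hr
    induction hr with
    | refl => exact DReach.refl _ _
    | @tail f1 f2 h1 hs ih =>
      have hf1 : f1 ∈ A := hA f1 ih
      refine ih.tail ?_
      obtain ⟨e, he, h2⟩ := hs
      refine ⟨e, ⟨he.1, fun hcon => he.2 ?_⟩, h2⟩
      have hE : e ∈ EA a b c d A := by
        rw [mem_EA]
        refine ⟨he.1, ?_⟩
        rcases h2 with h2 | h2
        · left; rw [h2.1]; exact hf1
        · right; rw [h2.2]; exact hf1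
      exact (h e hE).1 hcon

/-- Open paths inside an explored region. -/
theorem loc_r_iff {a b c d : ℤ} {F F' : Finset Edg} {A : Set Vtx}
    (h : ∀ e ∈ EA a b c d A, e ∈ F ↔ e ∈ F') {u : Vtx}
    (hA : ∀ v, Reach (↑F ∩ ↑(LRE a b c d)) u v → ∀ e ∈ LRE a b c d, (src e = v ∨ tgt e = v) →
      e ∈ EA a b c d A) (v : Vtx) :
    Reach (↑F ∩ ↑(LRE a b c d)) u v ↔ Reach (↑F' ∩ ↑(LRE a b c d)) u v := by
  constructor
  · intro hr
    induction hr with
    | refl => exact Reach.refl _ _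
    | @tail v1 v2 h1 hs ih =>
      refine ih.tail ?_
      obtain ⟨e, he, h2⟩ := hs
      have hE : e ∈ EA a b c d A := hA v1 h1 e he.2 (by
        rcases h2 with h2 | h2
        · exact Or.inl h2.1
        · exact Or.inr h2.2)
      exact ⟨e, ⟨(h e hE).1 he.1, he.2⟩, h2⟩
  · intro hr
    induction hr with
    | refl => exact Reach.refl _ _
    | @tail v1 v2 h1 hs ih =>
      refine ih.tail ?_
      obtain ⟨e, he, h2⟩ := hs
      have hE : e ∈ EA a b c d A := hA v1 ih e he.2 (by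
        rcases h2 with h2 | h2
        · exact Or.inl h2.1
        · exact Or.inr h2.2)
      exact ⟨e, ⟨(h e hE).2 he.1, he.2⟩, h2⟩

/-- The second face of an edge touches both endpoints. -/
theorem loc_cor {e : Edg} {v : Vtx} (h : src e = v ∨ tgt e = v) : Cor v (dtgt e) := by
  obtain ⟨x, y, _ | _⟩ := e
  · rcases h with h | h
    · subst h; exact ⟨Or.inl rfl, Or.inl rfl⟩
    · subst h
      refine ⟨Or.inl rfl, Or.inr ?_⟩
      simp
  · rcases h with h | h
    · subst h; exact ⟨Or.inl rfl, Or.inl rfl⟩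
    · subst h
      refine ⟨Or.inr ?_, Or.inl rfl⟩
      simp

/-- An edge of the rectangle at a vertex of `PS F j` has a face in `DS F (j + 1)`. -/
theorem loc_edge {a b c d : ℤ} {F : Finset Edg} {j : ℕ} {v : Vtx} (hv : v ∈ PS a b c d F j)
    {e : Edg} (he : e ∈ LRE a b c d) (h : src e = v ∨ tgt e = v) :
    dtgt e ∈ DS a b c d F (j + 1) :=
  ⟨v, hv, dtgt e, (loc_faces he).2, loc_cor h, DReach.refl _ _⟩

/-- L1: the explored region is determined by the explored edges. -/
theorem DS_local {a b c d : ℤ} (hcd : c < d) {F F' : Finset Edg} {k : ℕ}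
    (h : F ∩ EA a b c d (DS a b c d F k) = F' ∩ EA a b c d (DS a b c d F k)) :
    DS a b c d F' k = DS a b c d F k := by
  have h' : ∀ e ∈ EA a b c d (DS a b c d F k), e ∈ F ↔ e ∈ F' := by
    intro e he
    constructor
    · intro h1
      have : e ∈ F ∩ EA a b c d (DS a b c d F k) := Finset.mem_inter.2 ⟨h1, he⟩
      rw [h] at this
      exact (Finset.mem_inter.1 this).1
    · intro h1
      have : e ∈ F' ∩ EA a b c d (DS a b c d F k) := Finset.mem_inter.2 ⟨h1, he⟩
      rw [← h] at this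
      exact (Finset.mem_inter.1 this).1
  have key : ∀ j, j ≤ k → DS a b c d F' j = DS a b c d F j := by
    intro j
    induction j with
    | zero =>
      intro _
      ext f
      constructor
      · rintro ⟨x, hx, hr⟩
        refine ⟨x, hx, (loc_d_iff h' (fun f1 h1 => ?_) f).2 hr⟩
        exact loc_mono hcd F (Nat.zero_le k) ⟨x, hx, h1⟩
      · rintro ⟨x, hx, hr⟩
        refine ⟨x, hx, (loc_d_iff h' (fun f1 h1 => ?_) f).1 hr⟩
        exact loc_mono hcd F (Nat.zero_le k) ⟨x, hx, h1⟩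
    | succ j ih =>
      intro hj
      have ihj := ih (by omega)
      have hP : PS a b c d F' j = PS a b c d F j := by
        unfold PS
        rw [ihj]
        ext v
        have hiff : ∀ f ∈ DS a b c d F j, ∀ u : Vtx, Cor u f → (a ≤ u.1 ∧ u.1 ≤ b) →
            (c ≤ u.2 ∧ u.2 ≤ d) →
            (Reach (↑F ∩ ↑(LRE a b c d)) u v ↔ Reach (↑F' ∩ ↑(LRE a b c d)) u v) := by
          intro f hf u hu hu1 hu2
          refine loc_r_iff h' (fun v1 hv1 e he hev => ?_) v
          rw [mem_EA]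
          refine ⟨he, Or.inr (loc_mono hcd F hj ?_)⟩
          exact loc_edge ⟨f, hf, u, hu, hu1, hu2, hv1⟩ he hev
        constructor
        · rintro ⟨f, hf, u, hu, hu1, hu2, hr⟩
          exact ⟨f, hf, u, hu, hu1, hu2, (hiff f hf u hu hu1 hu2).2 hr⟩
        · rintro ⟨f, hf, u, hu, hu1, hu2, hr⟩
          exact ⟨f, hf, u, hu, hu1, hu2, (hiff f hf u hu hu1 hu2).1 hr⟩
      have e1 : DS a b c d F' (j + 1) = DSt a b c d (PS a b c d F' j) F' := rfl
      have e2 : DS a b c d F (j + 1) = DSt a b c d (PS a b c d F j) F := rfl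
      rw [e1, hP]
      ext f
      constructor
      · rintro ⟨v, hv, g, hg, hvg, hr⟩
        refine ⟨v, hv, g, hg, hvg, (loc_d_iff h' (fun f1 h1 => ?_) f).2 hr⟩
        exact loc_mono hcd F hj ⟨v, hv, g, hg, hvg, h1⟩
      · rintro ⟨v, hv, g, hg, hvg, hr⟩
        refine ⟨v, hv, g, hg, hvg, (loc_d_iff h' (fun f1 h1 => ?_) f).1 hr⟩
        exact loc_mono hcd F hj ⟨v, hv, g, hg, hvg, h1⟩
  exact key k le_rfl

theorem DS_event {a b c d : ℤ} (hcd : c < d) {F : Finset Edg} {k : ℕ} {A : Set Vtx} :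
    DS a b c d F k = A ↔ DS a b c d (F ∩ EA a b c d A) k = A := by
  constructor
  · intro h
    have h1 : F ∩ EA a b c d (DS a b c d F k) =
        (F ∩ EA a b c d A) ∩ EA a b c d (DS a b c d F k) := by
      rw [h, Finset.inter_assoc, Finset.inter_self]
    rw [DS_local hcd h1, h]
  · intro h
    have h1 : (F ∩ EA a b c d A) ∩ EA a b c d (DS a b c d (F ∩ EA a b c d A) k) =
        F ∩ EA a b c d (DS a b c d (F ∩ EA a b c d A) k) := by
      rw [h, Finset.inter_assoc, Finset.inter_self]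
    rw [DS_local hcd h1, h]

end Pool.Agent.H389R2.LV
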