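import Pool.Agent.H389R2.LV.Local
import Pool.Agent.H389R2.LV.AdmL

set_option autoImplicit false
set_option maxHeartbeats 1000000

namespace Pool.Agent.H389R2.LV

open H974 Pool.Agent.H160R2.CV Pool.Agent.H389R2.CD

theorem P_ok : Ok P := fun _ => by
  unfold Pool.Agent.H160R2.CV.P
  constructor <;> norm_num

theorem EA_sub {a b c d : ℤ} {A : Set Vtx} : EA a b c d A ⊆ LRE a b c d := by
  intro e he
  exact (mem_EA.mp he).1

/-- LM: the Markov property of the exploration. -/
theorem markov_DS {a b c d : ℤ} (hcd : c < d) {S : Finset Edg} (hS : LRE a b c d ⊆ S) (k : ℕ)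
    (Q : Set Vtx → Prop) (G : Set Vtx → Finset Edg → Prop) {β : ℝ}
    (hloc : ∀ A F, Q A → (G A F ↔ G A (F \ EA a b c d A)))
    (hG : ∀ A, Q A → Pr P S (G A) ≤ β) :
    Pr P S (fun F => Q (DS a b c d F k) ∧ G (DS a b c d F k) F) ≤
      β * Pr P S (fun F => Q (DS a b c d F k)) := by
  classical
  -- the possible values of the explored region
  set 𝒜 : Finset (Set Vtx) := S.powerset.image (fun F => DS a b c d F k) with h𝒜
  have hmem : ∀ F, F ⊆ S → DS a b c d F k ∈ 𝒜 := fun F hF =>
    Finset.mem_image.mpr ⟨F, Finset.mem_powerset.mpr hF, rfl⟩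
  have hsum : ∀ (R : Set Vtx → Finset Edg → Prop),
      Pr P S (fun F => R (DS a b c d F k) F) =
        ∑ A ∈ 𝒜, Pr P S (fun F => DS a b c d F k = A ∧ R A F) := by
    intro R
    unfold Pr
    rw [← Ex_sum]
    apply Ex_congr
    intro F hF
    rw [Finset.sum_eq_single (DS a b c d F k)]
    · exact ind_congr ⟨fun h => ⟨rfl, h⟩, fun h => h.2⟩
    · intro A _ hA
      exact ind_not_of (fun h => hA h.1.symm)
    · intro h
      exact absurd (hmem F hF) h
  rw [hsum (fun A F => Q A ∧ G A F), hsum (fun A _ => Q A), Finset.mul_sum]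
  apply Finset.sum_le_sum
  intro A _
  by_cases hQ : Q A
  · have h1 : Pr P S (fun F => DS a b c d F k = A ∧ Q A ∧ G A F) =
        Pr P S (fun F => DS a b c d F k = A) * Pr P S (G A) := by
      rw [← Pr_indep (U := S) (S := EA a b c d A) (T := S \ EA a b c d A)
        (A := fun F => DS a b c d F k = A) (B := G A)]
      · apply Pr_congr
        intro F _
        exact ⟨fun h => ⟨h.1, h.2.2⟩, fun h => ⟨h.1, hQ, h.2⟩⟩
      · exact EA_sub.trans hS
      · exact Finset.sdiff_subset
      · exact Finset.disjoint_sdiff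
      · intro F _
        exact DS_event hcd
      · intro F hF
        rw [hloc A F hQ, hloc A (F ∩ (S \ EA a b c d A)) hQ]
        have : F \ EA a b c d A = (F ∩ (S \ EA a b c d A)) \ EA a b c d A := by
          ext e
          simp only [Finset.mem_sdiff, Finset.mem_inter]
          constructor
          · rintro ⟨h1, h2⟩
            exact ⟨⟨h1, hF h1, h2⟩, h2⟩
          · rintro ⟨⟨h1, _, _⟩, h2⟩
            exact ⟨h1, h2⟩
        rw [← this]
    have h2 : Pr P S (fun F => DS a b c d F k = A ∧ Q A) =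
        Pr P S (fun F => DS a b c d F k = A) :=
      Pr_congr (fun F _ => ⟨fun h => h.1, fun h => ⟨h, hQ⟩⟩)
    rw [h1, h2, mul_comm]
    exact mul_le_mul_of_nonneg_right (hG A hQ) (Pr_nonneg P_ok S _)
  · have h1 : Pr P S (fun F => DS a b c d F k = A ∧ Q A ∧ G A F) = 0 := by
      have : Pr P S (fun F => DS a b c d F k = A ∧ Q A ∧ G A F) = Pr P S (fun _ => ¬ True) :=
        Pr_congr (fun F _ => ⟨fun h => absurd h.2.1 hQ, fun h => absurd trivial h⟩)
      rw [this, Pr_not, Pr_true S (fun _ _ => trivial), sub_self]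
    have h2 : Pr P S (fun F => DS a b c d F k = A ∧ Q A) = 0 := by
      have : Pr P S (fun F => DS a b c d F k = A ∧ Q A) = Pr P S (fun _ => ¬ True) :=
        Pr_congr (fun F _ => ⟨fun h => absurd h.2 hQ, fun h => absurd trivial h⟩)
      rw [this, Pr_not, Pr_true S (fun _ _ => trivial), sub_self]
    rw [h1, h2, mul_zero]

end Pool.Agent.H389R2.LV
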