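import Pool.Agent.H389R2.LV.Defs

set_option autoImplicit false
set_option maxHeartbeats 1000000

namespace Pool.Agent.H389R2.LV

open H974 Pool.Agent.H160R2.CV Pool.Agent.H389R2.CD

theorem Stop_cor_faces (e : Edg) {z z' : Vtx}
    (h : (src e = z ∧ tgt e = z') ∨ (src e = z' ∧ tgt e = z)) :
    (Cor z (dsrc e) ∧ Cor z (dtgt e)) ∧ (Cor z' (dsrc e) ∧ Cor z' (dtgt e)) := by
  obtain ⟨x, y, b⟩ := e
  cases b <;> rcases h with ⟨rfl, rfl⟩ | ⟨rfl, rfl⟩ <;>
    simp [Cor]

theorem Stop_step {G : Set Edg} {z z' : Vtx} (e : Edg) (he : e ∈ G)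
    (h : (src e = z ∧ tgt e = z') ∨ (src e = z' ∧ tgt e = z)) : Reach G z z' :=
  Adj.reach ⟨e, he, h⟩

theorem Stop_dstep {G : Set Edg} {z z' : Vtx} (e : Edg) (he : e ∈ G)
    (h : (dsrc e = z ∧ dtgt e = z') ∨ (dsrc e = z' ∧ dtgt e = z)) : DReach G z z' :=
  DAdj.reach ⟨e, he, h⟩

/-- all corners of a face of `A` are connected with the upper left one -/
theorem Stop_face {a b c d : ℤ} (hab : a + 1 < b) {A : Set Vtx}
    (hA : Adm a b c d A) {f u : Vtx} (hf : f ∈ A) (hu : Cor u f) (hu2 : c ≤ u.2) :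
    Reach (↑(EA a b c d A) : Set Edg) u (f.1, f.2 + 1) := by
  obtain ⟨x, y⟩ := f
  obtain ⟨p, q⟩ := u
  obtain ⟨⟨h1, h2⟩, h3, h4⟩ := hA.sub _ hf
  simp only [Cor] at hu h1 h2 h3 h4 hu2 ⊢
  -- the top edge
  have htop : ((x, y + 1, true) : Edg) ∈ (↑(EA a b c d A) : Set Edg) := by
    rw [Finset.mem_coe, mem_EA, mem_LRE_true]
    refine ⟨by omega, Or.inl ?_⟩
    rw [dsrc_true, add_sub_cancel_right]; exact hf
  have rtop : Reach (↑(EA a b c d A) : Set Edg) (x + 1, y + 1) (x, y + 1) :=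
    Stop_step _ htop (Or.inr ⟨rfl, rfl⟩)
  by_cases hy : y = c - 1
  · have hq : q = y + 1 := by omega
    subst hq
    rcases hu.1 with h | h
    · have : p = x := by omega
      subst this; exact Reach.refl _ _
    · have : p = x + 1 := by omega
      subst this; exact rtop
  · -- the bottom edge
    have hbot : ((x, y, true) : Edg) ∈ (↑(EA a b c d A) : Set Edg) := by
      rw [Finset.mem_coe, mem_EA, mem_LRE_true]
      exact ⟨by omega, Or.inr hf⟩
    have rbot : Reach (↑(EA a b c d A) : Set Edg) (x, y) (x + 1, y) :=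
      Stop_step _ hbot (Or.inl ⟨rfl, rfl⟩)
    have rver : Reach (↑(EA a b c d A) : Set Edg) (x, y) (x, y + 1) := by
      by_cases hx : a < x
      · have : ((x, y, false) : Edg) ∈ (↑(EA a b c d A) : Set Edg) := by
          rw [Finset.mem_coe, mem_EA, mem_LRE_false]
          exact ⟨by omega, Or.inr hf⟩
        exact Stop_step _ this (Or.inl ⟨rfl, rfl⟩)
      · have : ((x + 1, y, false) : Edg) ∈ (↑(EA a b c d A) : Set Edg) := by
          rw [Finset.mem_coe, mem_EA, mem_LRE_false]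
          refine ⟨by omega, Or.inl ?_⟩
          rw [dsrc_false, add_sub_cancel_right]; exact hf
        exact (rbot.trans (Stop_step _ this (Or.inl ⟨rfl, rfl⟩))).trans rtop
    rcases hu.1 with h | h <;> rcases hu.2 with h' | h'
    · have e1 : p = x := by omega
      have e2 : q = y := by omega
      subst e1 e2; exact rver
    · have e1 : p = x := by omega
      have e2 : q = y + 1 := by omega
      subst e1 e2; exact Reach.refl _ _
    · have e1 : p = x + 1 := by omega
      have e2 : q = y := by omega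
      subst e1 e2; exact rbot.symm.trans rver
    · have e1 : p = x + 1 := by omega
      have e2 : q = y + 1 := by omega
      subst e1 e2; exact rtop

/-- L7a: the corners of `A` are connected by explored edges. -/
theorem corner_conn {a b c d : ℤ} (hab : a + 1 < b) (hcd : c < d) {A : Set Vtx}
    (hA : Adm a b c d A) {f u : Vtx} (hf : f ∈ A) (hu : Cor u f) (hu2 : c ≤ u.2) :
    Reach (↑(EA a b c d A) : Set Edg) u (a, c) := by
  refine (Stop_face hab hA hf hu hu2).trans ?_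
  have h := hA.conn f hf
  clear hu hu2 u hf
  induction h with
  | refl =>
    have : ((a, c - 1 + 1) : Vtx) = (a, c) := by rw [sub_add_cancel]
    show Reach _ ((a, c - 1 + 1) : Vtx) (a, c)
    rw [this]; exact Reach.refl _ _
  | @tail g f _ hs ih =>
    refine Reach.trans ?_ ih
    obtain ⟨e, ⟨he1, he2⟩, h⟩ := hs
    obtain ⟨⟨-, -⟩, k1, k2⟩ := Stop_cor_faces e (z := src e) (z' := tgt e) (Or.inl ⟨rfl, rfl⟩)
    have hc : c ≤ (tgt e).2 := by
      have s1 := (hA.sub _ he1).2.1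
      have s2 := (hA.sub _ he2).2.1
      obtain ⟨x, y, b⟩ := e
      cases b
      · simp only [tgt_false, dtgt_mk] at s2 ⊢; omega
      · simp only [tgt_true, dsrc_true] at s1 ⊢; omega
    rcases h with ⟨rfl, rfl⟩ | ⟨rfl, rfl⟩
    · exact (Stop_face hab hA he2 k2 hc).symm.trans (Stop_face hab hA he1 k1 hc)
    · exact (Stop_face hab hA he1 k1 hc).symm.trans (Stop_face hab hA he2 k2 hc)

theorem Stop_CT_St {a b c d : ℤ} (hab : a < b) (hcd : c < d) {A : Set Vtx} {f : Vtx}
    (hf : f ∈ CT a b c d A) : f ∈ St a b c := by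
  unfold CT at hf
  rw [Set.mem_ofPred_eq] at hf
  rcases Relation.ReflTransGen.cases_tail hf with h | ⟨g, _, e, ⟨⟨h1, -⟩, h2, -⟩, h3⟩
  · rw [h]
    exact ⟨⟨le_rfl, hab⟩, by show c - 1 ≤ d; omega⟩
  · rcases h3 with ⟨_, rfl⟩ | ⟨rfl, _⟩
    · exact h2
    · exact h1

/-- L7b: a path which starts above `A` and hits a corner of `A` hits the frontier by unexplored
edges. -/
theorem stop {a b c d : ℤ} (hab : a < b) (hcd : c < d) {A : Set Vtx} (hA : Adm a b c d A)
    {F : Finset Edg} {x w : Vtx} (h : Reach (↑(F ∪ EA a b c d A) ∩ {e : Edg | a < e.1 ∧ e.1 + 1 < b}) x w)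
    (hx0 : a < x.1 ∧ x.1 < b)
    (hx : ∀ f, Cor x f → f ∉ A ∧ f ∈ CT a b c d A) (hw : ∃ f ∈ A, Cor w f) :
    ∃ v ∈ V0 a b c d A, Reach (↑F \ ↑(EA a b c d A)) x v := by
  have key : (∃ v ∈ V0 a b c d A, Reach (↑F \ ↑(EA a b c d A)) x v) ∨
      (Reach (↑F \ ↑(EA a b c d A)) x w ∧ (a < w.1 ∧ w.1 < b) ∧
        ∀ f, Cor w f → f ∉ A ∧ f ∈ CT a b c d A) := by
    clear hw
    induction h with
    | refl => exact Or.inr ⟨Reach.refl _ _, hx0, hx⟩
    | @tail z z' _ hs ih =>
      rcases ih with ih | ⟨hr, -, hz⟩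
      · exact Or.inl ih
      obtain ⟨e, ⟨he1, he2⟩, hh⟩ := hs
      obtain ⟨⟨c1, c2⟩, c3, c4⟩ := Stop_cor_faces e hh
      have heA : e ∉ EA a b c d A := by
        rw [mem_EA]
        rintro ⟨-, h | h⟩
        · exact (hz _ c1).1 h
        · exact (hz _ c2).1 h
      have heF : e ∈ (↑F \ ↑(EA a b c d A) : Set Edg) := by
        rw [Finset.mem_coe, Finset.mem_union] at he1
        exact ⟨he1.resolve_right heA, heA⟩
      have hr' : Reach (↑F \ ↑(EA a b c d A)) x z' := hr.trans (Stop_step e heF hh)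
      have hg : dtgt e ∈ CT a b c d A := (hz _ c2).2
      by_cases hz' : ∃ f ∈ A, Cor z' f
      · exact Or.inl ⟨z', ⟨hz', _, hg, c4⟩, hr'⟩
      · have hno : ∀ f, Cor z' f → f ∉ A := fun f hf hfA => hz' ⟨f, hfA, hf⟩
        have hgS := Stop_CT_St hab hcd hg
        have hz1 : a < z'.1 ∧ z'.1 < b := by
          simp only [Set.mem_ofPred_eq] at he2
          obtain ⟨p, q, t⟩ := e
          cases t <;> rcases hh with ⟨_, rfl⟩ | ⟨rfl, _⟩ <;>
            simp only [src_mk, tgt_true, tgt_false] at he2 ⊢ <;> omega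
        refine Or.inr ⟨hr', hz1, ?_⟩
        obtain ⟨X, Y⟩ := z'
        simp only at hz1
        have hY : c + 1 ≤ Y := by
          by_contra hlt
          obtain ⟨⟨g1, g2⟩, g3⟩ := hgS
          obtain ⟨k1, k2⟩ := c4
          simp only at k1 k2
          by_cases hYc : Y = c
          · have := hno (X, c - 1) ⟨Or.inl rfl, Or.inr (by simp only; omega)⟩
            exact this (hA.bot X (by omega) (by omega))
          · have e2 : (dtgt e).2 = c - 1 := by omega
            have := hno (dtgt e) ⟨k1, k2⟩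
            apply this
            have e3 : dtgt e = ((dtgt e).1, c - 1) := by rw [← e2]
            rw [e3]
            exact hA.bot _ g1 g2
        -- the four faces
        have F1 : ((X, Y) : Vtx) ∈ St a b c ∧ ((X, Y) : Vtx) ∉ A :=
          ⟨⟨⟨by simp only; omega, by simp only; omega⟩, by simp only; omega⟩,
            hno _ ⟨Or.inl rfl, Or.inl rfl⟩⟩
        have F2 : ((X - 1, Y) : Vtx) ∈ St a b c ∧ ((X - 1, Y) : Vtx) ∉ A :=
          ⟨⟨⟨by simp only; omega, by simp only; omega⟩, by simp only; omega⟩,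
            hno _ ⟨Or.inr rfl, Or.inl rfl⟩⟩
        have F3 : ((X, Y - 1) : Vtx) ∈ St a b c ∧ ((X, Y - 1) : Vtx) ∉ A :=
          ⟨⟨⟨by simp only; omega, by simp only; omega⟩, by simp only; omega⟩,
            hno _ ⟨Or.inl rfl, Or.inr rfl⟩⟩
        have F4 : ((X - 1, Y - 1) : Vtx) ∈ St a b c ∧ ((X - 1, Y - 1) : Vtx) ∉ A :=
          ⟨⟨⟨by simp only; omega, by simp only; omega⟩, by simp only; omega⟩,
            hno _ ⟨Or.inr rfl, Or.inr rfl⟩⟩
        have D12 : DReach {e | (dsrc e ∈ St a b c ∧ dsrc e ∉ A) ∧ (dtgt e ∈ St a b c ∧ dtgt e ∉ A)}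
            (X - 1, Y) (X, Y) :=
          Stop_dstep (X, Y, false) ⟨F2, F1⟩ (Or.inl ⟨rfl, rfl⟩)
        have D34 : DReach {e | (dsrc e ∈ St a b c ∧ dsrc e ∉ A) ∧ (dtgt e ∈ St a b c ∧ dtgt e ∉ A)}
            (X - 1, Y - 1) (X, Y - 1) :=
          Stop_dstep (X, Y - 1, false) ⟨F4, F3⟩ (Or.inl ⟨rfl, rfl⟩)
        have D13 : DReach {e | (dsrc e ∈ St a b c ∧ dsrc e ∉ A) ∧ (dtgt e ∈ St a b c ∧ dtgt e ∉ A)}
            (X, Y - 1) (X, Y) :=
          Stop_dstep (X, Y, true) ⟨F3, F1⟩ (Or.inl ⟨rfl, rfl⟩)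
        have all : ∀ f : Vtx, Cor (X, Y) f →
            DReach {e | (dsrc e ∈ St a b c ∧ dsrc e ∉ A) ∧ (dtgt e ∈ St a b c ∧ dtgt e ∉ A)}
              f (X, Y) := by
          rintro ⟨f1, f2⟩ ⟨k1, k2⟩
          simp only at k1 k2
          rcases k1 with rfl | rfl <;> rcases k2 with rfl | rfl
          · exact DReach.refl _ _
          · exact D13
          · exact D12
          · exact D34.trans D13
        intro f hf
        refine ⟨hno f hf, ?_⟩
        unfold CT at hg ⊢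
        rw [Set.mem_ofPred_eq] at hg ⊢
        exact (hg.trans (all _ c4)).trans (all f hf).symm
  rcases key with h | ⟨-, -, h⟩
  · exact h
  · obtain ⟨f, hf, hc⟩ := hw
    exact absurd hf (h f hc).1

end Pool.Agent.H389R2.LV
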